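import Pool.Agent.TS.Stmts

/-!
NATX: a strand passes across a diagram.
-/

namespace Pool.Agent.TS.NATX

open Pool.Agent.LibH11 Pool.Agent.LibH11.Sliced Pool.Agent.TwoBr

theorem XX_zero (e : Bool) : XX e 0 = [] := rfl

theorem XX_succ (e : Bool) (n : ℕ) : XX e (n + 1) = (Kind.crs e, n) :: XX e n := rfl

theorem XX_add (e : Bool) (a : ℕ) : ∀ b : ℕ, XX e (a + b) = sh a (XX e b) ++ XX e a := by
  intro b
  induction b with
  | zero => simp [XX_zero]
  | succ b ih =>
    rw [← add_assoc, XX_succ, XX_succ, ih, sh_cons, List.cons_append, add_comm a b]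

theorem cnt_XX (e : Bool) : ∀ n N : ℕ, n + 1 ≤ N → cnt N (XX e n) = some N := by
  intro n
  induction n with
  | zero => intro N _; rfl
  | succ n ih =>
    intro N h
    rw [XX_succ]
    simp only [cnt, Kind.ins, Kind.outs]
    rw [if_pos (by omega), show N - 2 + 2 = N by omega]
    exact ih N (by omega)

/-! ### One slice -/

theorem base_cup (e : Bool) : EqD 1 ((.cup, 0) :: XX e 2) [(.cup, 1)] := by
  cases e
  · exact EqD.of_chk [(0, false, .su 0 false), (1, false, .r2 0 true)] rfl
  · exact EqD.of_chk [(0, false, .su 0 true), (1, false, .r2 0 false)] rfl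

theorem base_cap (e : Bool) : EqD 3 [(.cap, 0)] (XX e 2 ++ [(.cap, 1)]) := by
  cases e
  · exact EqD.of_chk [(0, true, .r2 1 false), (1, false, .sa 0 true)] rfl
  · exact EqD.of_chk [(0, true, .r2 1 true), (1, false, .sa 0 false)] rfl

theorem base_crs (c e : Bool) : EqD 3 ((.crs c, 0) :: XX e 2) (XX e 2 ++ [(.crs c, 1)]) := by
  cases c <;> cases e
  · exact EqD.of_chk [(0, true, .r2 1 false), (1, true, .r2 0 false), (2, true, .r2 1 false),
      (3, true, .r3 0), (5, false, .r2 0 true), (4, false, .r2 1 true), (3, false, .r2 0 true)] rfl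
  · exact EqD.of_chk [(3, true, .r2 1 true), (1, true, .r3 0), (0, false, .r2 0 false)] rfl
  · exact EqD.of_chk [(0, true, .r2 1 false), (1, true, .r2 0 false), (2, false, .r3 0),
      (4, false, .r2 1 true), (3, false, .r2 0 true)] rfl
  · exact EqD.of_chk [(0, false, .r3 0)] rfl

theorem base (e : Bool) (k : Kind) :
    EqD (k.ins + 1) ((k, 0) :: XX e k.outs) (XX e k.ins ++ [(k, 1)]) := by
  cases k with
  | cup => exact base_cup e
  | cap => exact base_cap e
  | crs c => exact base_crs c e

theorem slice (e : Bool) (k : Kind) (i r : ℕ) :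
    EqD (i + k.ins + r + 1) ((k, i) :: XX e (i + k.outs + r))
      (XX e (i + k.ins + r) ++ [(k, i + 1)]) := by
  -- the parts of the two words
  have hL : XX e (i + k.outs + r) =
      sh (i + k.outs) (XX e r) ++ (sh i (XX e k.outs) ++ XX e i) := by
    rw [XX_add, XX_add]
  have hR : XX e (i + k.ins + r) = sh (i + k.ins) (XX e r) ++ (sh i (XX e k.ins) ++ XX e i) := by
    rw [XX_add, XX_add]
  -- counts
  have cr : cnt (r + 1) (XX e r) = some (r + 1) := cnt_XX e r _ le_rfl
  have cU : cnt (i + k.ins + r + 1) (sh (i + k.ins) (XX e r)) = some (i + k.ins + r + 1) := by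
    rw [show i + k.ins + r + 1 = (r + 1) + (i + k.ins) by omega, cnt_sh, cr]
    rfl
  have hins : k.ins ≤ 2 := by cases k <;> simp [Kind.ins]
  have houts : k.outs ≤ 2 := by cases k <;> simp [Kind.outs]
  have ck : cnt (i + k.ins + r + 1) [(k, i)] = some (i + k.outs + r + 1) := by
    rw [cnt_one (by omega)]
    congr 1
    omega
  have cMo : cnt (i + k.outs + r + 1) (sh i (XX e k.outs)) = some (i + k.outs + r + 1) := by
    rw [show i + k.outs + r + 1 = (k.outs + r + 1) + i by omega, cnt_sh,
      cnt_XX e k.outs _ (by omega)]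
    rfl
  have cMi : cnt (i + k.ins + r + 1) (sh i (XX e k.ins)) = some (i + k.ins + r + 1) := by
    rw [show i + k.ins + r + 1 = (k.ins + r + 1) + i by omega, cnt_sh,
      cnt_XX e k.ins _ (by omega)]
    rfl
  have cL : cnt (i + k.outs + r + 1) (XX e i) = some (i + k.outs + r + 1) :=
    cnt_XX e i _ (by omega)
  -- step 1
  have s1 : EqD (i + k.ins + r + 1) ((k, i) :: sh (i + k.outs) (XX e r))
      (sh (i + k.ins) (XX e r) ++ [(k, i)]) := by
    have h := far_left k (i := i) (N := i + k.ins) le_rfl (XX e r) (r + 1) (by rw [cr]; simp)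
    rw [show i + k.ins - k.ins + k.outs = i + k.outs by omega,
      show i + k.ins + (r + 1) = i + k.ins + r + 1 by omega] at h
    exact h
  -- step 2
  have s2 : EqD (i + k.ins + r + 1) ((k, i) :: sh i (XX e k.outs))
      (sh i (XX e k.ins) ++ [(k, i + 1)]) := by
    have h := ((base e k).sh i).widen r
    rw [show k.ins + 1 + i + r = i + k.ins + r + 1 by omega] at h
    rw [sh_cons, sh_append, sh_cons, sh_nil, zero_add, add_comm 1 i] at h
    exact h
  -- step 3
  have s3 : EqD (i + k.ins + r + 1) ([(k, i + 1)] ++ XX e i) (XX e i ++ [(k, i + 1)]) := by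
    have h := far_words (XX e i) [(k, 0)] (i + 1) (i + 1) (k.ins + r) (cnt_XX e i _ le_rfl)
      (by rw [cnt_one (by omega)]; simp)
    rw [show i + 1 + (k.ins + r) = i + k.ins + r + 1 by omega] at h
    rw [sh_cons, sh_nil, zero_add] at h
    exact h.symm
  -- assembly
  rw [hL, hR]
  have c1 : cnt (i + k.ins + r + 1)
      (((k, i) :: sh (i + k.outs) (XX e r)) ++ (sh i (XX e k.outs) ++ XX e i)) ≠ none := by
    rw [show (k, i) :: sh (i + k.outs) (XX e r) = [(k, i)] ++ sh (i + k.outs) (XX e r) from rfl,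
      List.append_assoc, cnt_app ck]
    have h3 : cnt (i + k.outs + r + 1) (sh (i + k.outs) (XX e r)) =
        some (i + k.outs + r + 1) := by
      rw [show i + k.outs + r + 1 = (r + 1) + (i + k.outs) by omega, cnt_sh, cr]
      rfl
    rw [cnt_app h3, cnt_app cMo, cL]
    simp
  have t1 := s1.right (sh i (XX e k.outs) ++ XX e i) c1
  have c2 : cnt (i + k.ins + r + 1) (((k, i) :: sh i (XX e k.outs)) ++ XX e i) ≠ none := by
    rw [show (k, i) :: sh i (XX e k.outs) = [(k, i)] ++ sh i (XX e k.outs) from rfl,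
      List.append_assoc, cnt_app ck, cnt_app cMo, cL]
    simp
  have t2 := (s2.right (XX e i) c2).left (sh (i + k.ins) (XX e r)) cU
  have t3 := (s3.left (sh i (XX e k.ins)) cMi).left (sh (i + k.ins) (XX e r)) cU
  simp only [List.append_assoc, List.cons_append, List.nil_append] at t1 t2 t3 ⊢
  exact (t1.trans t2).trans t3

end Pool.Agent.TS.NATX

namespace Pool.Agent.TS

open Pool.Agent.LibH11.Sliced Pool.Agent.TwoBr

open NATX in
theorem natx : NATX_Stmt := by
  intro e f
  induction f with
  | nil =>
    intro n m h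
    simp only [cnt, Option.some.injEq] at h
    subst h
    simp only [List.nil_append, sh_nil, List.append_nil]
    exact EqD.refl _
  | cons p f ih =>
    obtain ⟨k, i⟩ := p
    intro n m h
    obtain ⟨h1, h2⟩ := cnt_cons_some h
    obtain ⟨r, rfl⟩ := Nat.exists_eq_add_of_le h1
    have h3 : i + k.ins + r - k.ins + k.outs = i + k.outs + r := by omega
    rw [h3] at h2
    have h4 := ih _ m h2
    have c4 : cnt (i + k.ins + r + 1) [(k, i)] = some (i + k.outs + r + 1) := by
      rw [cnt_one (by omega)]
      congr 1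
      omega
    have h5 := h4.left [(k, i)] c4
    have h6 := slice e k i r
    have c6 : cnt (i + k.ins + r + 1) (((k, i) :: XX e (i + k.outs + r)) ++ sh 1 f) ≠ none := by
      rw [show (k, i) :: XX e (i + k.outs + r) = [(k, i)] ++ XX e (i + k.outs + r) from rfl,
        List.append_assoc, cnt_app c4, cnt_app (cnt_XX e _ _ le_rfl), cnt_sh, h2]
      simp
    have h7 := h6.right (sh 1 f) c6
    simp only [List.append_assoc, List.cons_append, List.nil_append, sh_cons] at h5 h7 ⊢
    exact h5.trans h7

end Pool.Agent.TS
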