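import Pool.Agent.TS.Stmts
import Pool.Agent.TwoBr.Cert

/-!
# Module BEAD

A (1,1)-diagram slides along a strand of a braid with two strands, along a minimum and along a
maximum.
-/

namespace Pool.Agent.TS

open Pool.Agent.LibH11.Sliced Pool.Agent.TB Pool.Agent.TwoBr

namespace BEAD

/-- the count on more strands, at a shifted place -/
theorem cnt_f {f : Diag} (hf : cnt 1 f = some 1) (k l : ℕ) :
    cnt (1 + l + k) (sh k f) = some (1 + l + k) := by
  rw [cnt_sh, cnt_widen l f 1 1 hf]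
  rfl

/-- a local equivalence in a context -/
theorem lstep {N M P : ℕ} {x y : Diag} (u v : Diag) {w w' : Diag} (hw : w = u ++ x ++ v)
    (hw' : w' = u ++ y ++ v) (hu : cnt N u = some M) (h : EqD M x y)
    (hx : cnt M x = some P) (hv : cnt P v ≠ none) : EqD N w w' := by
  subst hw hw'
  refine EqD.ctx u v hu h ?_
  rw [List.append_assoc, cnt_app hu, cnt_app hx]
  exact hv

theorem ne_of_some {N M : ℕ} {w : Diag} (h : cnt N w = some M) : cnt N w ≠ none := by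
  rw [h]
  exact Option.some_ne_none M

theorem bead2 {f : Diag} (hf : cnt 1 f = some 1)
    (h1 : ∀ e, EqD 2 (f ++ ([(.crs e, 0)] : List (Kind × ℕ))) (([(.crs e, 0)] : List (Kind × ℕ)) ++ sh 1 f)) (e : Bool) :
    EqD 2 (sh 1 f ++ ([(.crs e, 0)] : List (Kind × ℕ))) (([(.crs e, 0)] : List (Kind × ℕ)) ++ f) := by
  have c1 : cnt 2 (sh 1 f) = some 2 := cnt_f hf 1 0
  have c0 : cnt 2 f = some 2 := by
    have := cnt_f hf 0 1
    rwa [sh_zero] at this
  have r2a : EqD 2 ([(.crs e, 0), (.crs (!e), 0)] : List (Kind × ℕ)) [] :=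
    EqD.move (Move.r2 0 e) (by simp [cnt, Kind.ins, Kind.outs]) (by simp [cnt])
  have r2b : EqD 2 ([(.crs (!e), 0), (.crs e, 0)] : List (Kind × ℕ)) [] := by
    have := EqD.move (N := 2) (Move.r2 0 (!e)) (by simp [cnt, Kind.ins, Kind.outs]) (by simp [cnt])
    rwa [Bool.not_not] at this
  have ce : ∀ e, cnt 2 ([(Kind.crs e, 0)] : List (Kind × ℕ)) = some 2 := fun e => rfl
  -- create two crossings
  have s1 : EqD 2 (sh 1 f ++ ([(.crs e, 0)] : List (Kind × ℕ)))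
      (([(.crs e, 0), (.crs (!e), 0)] : List (Kind × ℕ)) ++ sh 1 f ++ ([(.crs e, 0)] : List (Kind × ℕ))) :=
    (lstep (P := 2) [] (sh 1 f ++ ([(.crs e, 0)] : List (Kind × ℕ))) (by simp) (by simp) rfl r2a rfl
      (ne_of_some (M := 2) (by rw [cnt_app c1]; rfl))).symm
  have s2 : EqD 2 (([(.crs e, 0), (.crs (!e), 0)] : List (Kind × ℕ)) ++ sh 1 f ++ ([(.crs e, 0)] : List (Kind × ℕ)))
      (([(.crs e, 0)] : List (Kind × ℕ)) ++ f ++ ([(.crs (!e), 0), (.crs e, 0)] : List (Kind × ℕ))) :=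
    (lstep ([(.crs e, 0)] : List (Kind × ℕ)) ([(.crs e, 0)] : List (Kind × ℕ)) (by simp) (by simp) (ce e) (h1 (!e)) (P := 2)
      (by rw [cnt_app c0]; rfl) (ne_of_some (ce e))).symm
  have s3 : EqD 2 (([(.crs e, 0)] : List (Kind × ℕ)) ++ f ++ ([(.crs (!e), 0), (.crs e, 0)] : List (Kind × ℕ))) (([(.crs e, 0)] : List (Kind × ℕ)) ++ f) :=
    lstep (([(.crs e, 0)] : List (Kind × ℕ)) ++ f) [] (by simp) (by simp) (M := 2)
      (by rw [cnt_app (ce e)]; exact c0) r2b rfl (by simp [cnt])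
  exact (s1.trans s2).trans s3

end BEAD

open BEAD in
theorem bead (hn : NATX_Stmt) : BEAD_Stmt := by
  intro f hf
  have c0 : cnt 1 f = some 1 := hf
  have c02 : cnt 2 f = some 2 := by
    have := cnt_f hf 0 1
    rwa [sh_zero] at this
  have c1 : ∀ l, cnt (1 + l + 1) (sh 1 f) = some (1 + l + 1) := cnt_f hf 1
  have c2 : ∀ l, cnt (1 + l + 2) (sh 2 f) = some (1 + l + 2) := cnt_f hf 2
  have h1 : ∀ e, EqD 2 (f ++ ([(.crs e, 0)] : List (Kind × ℕ))) (([(.crs e, 0)] : List (Kind × ℕ)) ++ sh 1 f) := fun e => hn e f 1 1 hf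
  refine ⟨h1, bead2 hf h1, ?_⟩
  set g : Diag := ([(Kind.cup, 0)] : List (Kind × ℕ)) ++ sh 1 f ++ ([(Kind.cap, 1)] : List (Kind × ℕ)) with hg
  set h : Diag := ([(Kind.cup, 1)] : List (Kind × ℕ)) ++ sh 1 g ++ ([(Kind.cap, 0)] : List (Kind × ℕ)) with hh
  have cg : cnt 1 g = some 1 := by
    rw [hg, List.append_assoc, cnt_app (M := 3) rfl, cnt_app (M := 3) (c1 1)]
    rfl
  have cg1 : cnt 3 (sh 1 g) = some 3 := cnt_f cg 1 1
  have ch : cnt 1 h = some 1 := by
    rw [hh, List.append_assoc, cnt_app (M := 3) rfl, cnt_app (M := 3) cg1]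
    rfl
  have eg : sh 1 g = ([(Kind.cup, 1)] : List (Kind × ℕ)) ++ sh 2 f ++ ([(Kind.cap, 2)] : List (Kind × ℕ)) := by
    rw [hg, sh_append, sh_append, sh_sh]
    rfl
  have eh : sh 1 h = ([(Kind.cup, 2)] : List (Kind × ℕ)) ++ sh 2 g ++ ([(Kind.cap, 1)] : List (Kind × ℕ)) := by
    rw [hh, sh_append, sh_append, sh_sh]
    rfl
  refine ⟨cg, ch, ?_, ?_, ?_⟩
  · -- the bead passes a maximum
    have s1 : EqD 2 (sh 1 g ++ ([(.cap, 0)] : List (Kind × ℕ))) (([(.cup, 1)] : List (Kind × ℕ)) ++ sh 2 f ++ ([(.cap, 0), (.cap, 0)] : List (Kind × ℕ))) := by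
      refine (lstep (([(.cup, 1)] : List (Kind × ℕ)) ++ sh 2 f) [] (x := ([(.cap, 0), (.cap, 0)] : List (Kind × ℕ)))
        (y := ([(.cap, 2), (.cap, 0)] : List (Kind × ℕ))) (by simp) ?_ (M := 4) ?_ ?_ rfl (by simp [cnt])).symm
      · rw [eg]; simp
      · rw [cnt_app (M := 4) rfl]
        exact c2 1
      · exact EqD.move (Move.far .cap .cap 0 0) (by simp [cnt, Kind.ins, Kind.outs])
          (by simp [cnt, Kind.ins, Kind.outs])
    have fw : EqD 4 (([(.cap, 0)] : List (Kind × ℕ)) ++ f) (sh 2 f ++ ([(.cap, 0)] : List (Kind × ℕ))) := by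
      have := far_words ([(.cap, 0)] : List (Kind × ℕ)) f 2 0 2 rfl (ne_of_some c02)
      rwa [sh_zero] at this
    have s2 : EqD 2 (([(.cup, 1)] : List (Kind × ℕ)) ++ sh 2 f ++ ([(.cap, 0), (.cap, 0)] : List (Kind × ℕ)))
        (([(.cup, 1), (.cap, 0)] : List (Kind × ℕ)) ++ f ++ ([(.cap, 0)] : List (Kind × ℕ))) := by
      refine (lstep ([(.cup, 1)] : List (Kind × ℕ)) ([(.cap, 0)] : List (Kind × ℕ)) (by simp) (by simp) (M := 4) rfl fw (P := 2) ?_ ?_).symm
      · rw [cnt_app (M := 2) rfl]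
        exact c02
      · simp [cnt, Kind.ins]
    have s3 : EqD 2 (([(.cup, 1), (.cap, 0)] : List (Kind × ℕ)) ++ f ++ ([(.cap, 0)] : List (Kind × ℕ))) (f ++ ([(.cap, 0)] : List (Kind × ℕ))) := by
      refine lstep (P := 2) [] (f ++ ([(.cap, 0)] : List (Kind × ℕ))) (x := ([(.cup, 1), (.cap, 0)] : List (Kind × ℕ))) (y := []) (by simp)
        (by simp) rfl ?_ rfl ?_
      · exact EqD.move (Move.zagzig 0) (by simp [cnt, Kind.ins, Kind.outs]) (by simp [cnt])
      · rw [cnt_app c02]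
        simp [cnt, Kind.ins]
    exact ((s1.trans s2).trans s3).symm
  · -- the bead passes a minimum
    have cg2 : cnt 2 g = some 2 := by
      have := cnt_f cg 0 1
      rwa [sh_zero] at this
    have cg4 : cnt 4 (sh 2 g) = some 4 := cnt_f cg 2 1
    have s1 : EqD 0 (([(.cup, 0)] : List (Kind × ℕ)) ++ sh 1 h) (([(.cup, 0), (.cup, 0)] : List (Kind × ℕ)) ++ sh 2 g ++ ([(.cap, 1)] : List (Kind × ℕ))) := by
      refine lstep [] (sh 2 g ++ ([(.cap, 1)] : List (Kind × ℕ))) (x := ([(.cup, 0), (.cup, 2)] : List (Kind × ℕ)))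
        (y := ([(.cup, 0), (.cup, 0)] : List (Kind × ℕ))) ?_ (by simp) rfl ?_ rfl ?_
      · rw [eh]; simp
      · exact EqD.move (Move.far .cup .cup 0 0) (by simp [cnt, Kind.ins, Kind.outs])
          (by simp [cnt, Kind.ins, Kind.outs])
      · rw [show (0 - Kind.cup.ins + Kind.cup.outs - Kind.cup.ins + Kind.cup.outs) = 4 from rfl,
          cnt_app cg4]
        simp [cnt, Kind.ins]
    have fw : EqD 2 (([(.cup, 0)] : List (Kind × ℕ)) ++ sh 2 g) (g ++ ([(.cup, 0)] : List (Kind × ℕ))) := by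
      have := far_words ([(.cup, 0)] : List (Kind × ℕ)) g 0 2 2 rfl (ne_of_some cg2)
      rwa [sh_zero] at this
    have s2 : EqD 0 (([(.cup, 0), (.cup, 0)] : List (Kind × ℕ)) ++ sh 2 g ++ ([(.cap, 1)] : List (Kind × ℕ)))
        (([(.cup, 0)] : List (Kind × ℕ)) ++ g ++ ([(.cup, 0), (.cap, 1)] : List (Kind × ℕ))) := by
      refine lstep ([(.cup, 0)] : List (Kind × ℕ)) ([(.cap, 1)] : List (Kind × ℕ)) (by simp) (by simp) (M := 2) rfl fw (P := 4) ?_ ?_
      · rw [cnt_app (M := 4) rfl]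
        exact cg4
      · simp [cnt, Kind.ins]
    have s3 : EqD 0 (([(.cup, 0)] : List (Kind × ℕ)) ++ g ++ ([(.cup, 0), (.cap, 1)] : List (Kind × ℕ))) (([(.cup, 0)] : List (Kind × ℕ)) ++ g) := by
      refine lstep (([(.cup, 0)] : List (Kind × ℕ)) ++ g) [] (x := ([(.cup, 0), (.cap, 1)] : List (Kind × ℕ))) (y := []) (by simp)
        (by simp) (M := 2) ?_ ?_ rfl (by simp [cnt])
      · rw [cnt_app (M := 2) rfl]
        exact cg2
      · exact EqD.move (Move.zigzag 0) (by simp [cnt, Kind.ins, Kind.outs]) (by simp [cnt])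
    exact ((s1.trans s2).trans s3).symm
  · -- the double rotation
    have s1 : EqD 1 h (([(.cup, 1), (.cup, 3)] : List (Kind × ℕ)) ++ sh 2 f ++ ([(.cap, 2), (.cap, 0)] : List (Kind × ℕ))) := by
      refine (lstep [] (sh 2 f ++ ([(.cap, 2), (.cap, 0)] : List (Kind × ℕ))) (x := ([(.cup, 1), (.cup, 3)] : List (Kind × ℕ)))
        (y := ([(.cup, 1), (.cup, 1)] : List (Kind × ℕ))) (by simp) ?_ rfl ?_ rfl ?_).symm
      · rw [hh, eg]; simp
      · exact EqD.move (Move.far .cup .cup 1 0) (by simp [cnt, Kind.ins, Kind.outs])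
          (by simp [cnt, Kind.ins, Kind.outs])
      · rw [show (1 - Kind.cup.ins + Kind.cup.outs - Kind.cup.ins + Kind.cup.outs) = 5 from rfl,
          cnt_app (M := 5) (c2 2)]
        simp [cnt, Kind.ins, Kind.outs]
    have fw : EqD 3 (sh 2 f ++ ([(.cup, 3)] : List (Kind × ℕ))) (([(.cup, 3)] : List (Kind × ℕ)) ++ sh 2 f) :=
      far_words (sh 2 f) ([(.cup, 0)] : List (Kind × ℕ)) 3 3 0 (c2 0) (by simp [cnt, Kind.ins, Kind.outs])
    have s2 : EqD 1 (([(.cup, 1), (.cup, 3)] : List (Kind × ℕ)) ++ sh 2 f ++ ([(.cap, 2), (.cap, 0)] : List (Kind × ℕ)))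
        (([(.cup, 1)] : List (Kind × ℕ)) ++ sh 2 f ++ ([(.cup, 3), (.cap, 2), (.cap, 0)] : List (Kind × ℕ))) := by
      refine (lstep ([(.cup, 1)] : List (Kind × ℕ)) ([(.cap, 2), (.cap, 0)] : List (Kind × ℕ)) (by simp) (by simp) (M := 3) rfl fw (P := 5)
        ?_ ?_).symm
      · rw [cnt_app (M := 3) (c2 0)]
        rfl
      · simp [cnt, Kind.ins, Kind.outs]
    have s3 : EqD 1 (([(.cup, 1)] : List (Kind × ℕ)) ++ sh 2 f ++ ([(.cup, 3), (.cap, 2), (.cap, 0)] : List (Kind × ℕ)))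
        (([(.cup, 1)] : List (Kind × ℕ)) ++ sh 2 f ++ ([(.cap, 0)] : List (Kind × ℕ))) := by
      refine lstep (([(.cup, 1)] : List (Kind × ℕ)) ++ sh 2 f) ([(.cap, 0)] : List (Kind × ℕ)) (x := ([(.cup, 3), (.cap, 2)] : List (Kind × ℕ))) (y := [])
        (by simp) (by simp) (M := 3) ?_ ?_ rfl (by simp [cnt, Kind.ins, Kind.outs])
      · rw [cnt_app (M := 3) rfl]
        exact c2 0
      · exact EqD.move (Move.zagzig 2) (by simp [cnt, Kind.ins, Kind.outs]) (by simp [cnt])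
    have fw2 : EqD 3 (([(.cap, 0)] : List (Kind × ℕ)) ++ f) (sh 2 f ++ ([(.cap, 0)] : List (Kind × ℕ))) := by
      have := far_words ([(.cap, 0)] : List (Kind × ℕ)) f 2 0 1 rfl (ne_of_some c0)
      rwa [sh_zero] at this
    have s4 : EqD 1 (([(.cup, 1)] : List (Kind × ℕ)) ++ sh 2 f ++ ([(.cap, 0)] : List (Kind × ℕ))) (([(.cup, 1), (.cap, 0)] : List (Kind × ℕ)) ++ f) := by
      refine (lstep ([(.cup, 1)] : List (Kind × ℕ)) [] (by simp) (by simp) (M := 3) rfl fw2 (P := 1) ?_ ?_).symm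
      · rw [cnt_app (M := 1) rfl]
        exact c0
      · simp [cnt]
    have s5 : EqD 1 (([(.cup, 1), (.cap, 0)] : List (Kind × ℕ)) ++ f) f := by
      refine lstep [] f (x := ([(.cup, 1), (.cap, 0)] : List (Kind × ℕ))) (y := []) (by simp) (by simp) rfl ?_ rfl
        (ne_of_some c0)
      exact EqD.move (Move.zagzig 0) (by simp [cnt, Kind.ins, Kind.outs]) (by simp [cnt])
    exact (((s1.trans s2).trans s3).trans s4).trans s5

end Pool.Agent.TS
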