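import Pool.Agent.TS.Stmts
import Pool.Agent.TwoBr.Sim

/-!
CAT: stacking long knot diagrams.
-/

namespace Pool.Agent.TS.CAT

open Pool.Agent.LibH11.Sliced Pool.Agent.TwoBr

theorem run_app (u v : Diag) (s : State) : run (u ++ v) s = (run u s).bind (run v) := by
  induction u generalizing s with
  | nil => rfl
  | cons p u ih =>
    simp only [List.cons_append, run]
    cases h : step p s with
    | none => rfl
    | some t =>
      simp only [Option.bind_some]
      exact ih t

theorem main (u v : Diag) (hu : IsLongKnot u) (hv : IsLongKnot v) : IsLongKnot (u ++ v) := by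
  obtain ⟨lab, c, h1⟩ := hu
  obtain ⟨lab', c', h2⟩ := hv
  have hs : Sim ((1, fun _ => 0, 1) : State) (1, fun _ => 0, 1) := start_sim
  have h3 := run_osim u hs
  rw [h1] at h3
  have h4 : Sim ((1, lab, c) : State) (1, lab, c) := h3
  have h5 : Sim ((1, fun _ => 0, 1) : State) (1, lab, c) := by
    refine ⟨rfl, fun _ _ => Nat.zero_lt_one, h4.v1, ?_⟩
    intro i hi j hj
    have hi0 : i = 0 := by
      simp only at hi
      omega
    have hj0 : j = 0 := by
      simp only at hj
      omega
    subst hi0
    subst hj0
    simp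
  have h6 := run_osim v h5
  rw [h2] at h6
  cases h7 : run v (1, lab, c) with
  | none =>
    rw [h7] at h6
    exact h6.elim
  | some t =>
    rw [h7] at h6
    have h8 : Sim ((1, lab', c') : State) t := h6
    obtain ⟨n, l, d⟩ := t
    have h9 : (1 : ℕ) = n := h8.n
    subst h9
    refine ⟨l, d, ?_⟩
    rw [run_app, h1, Option.bind_some, h7]

end Pool.Agent.TS.CAT

namespace Pool.Agent.TS

theorem cat : CAT_Stmt := fun u v hu hv => CAT.main u v hu hv

end Pool.Agent.TS
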