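import Pool.Agent.TS.Stmts
import Pool.Agent.TB.Cnt
import Pool.Agent.TB.Fin2

/-!
# CNTM: the sum of the counting functions determines the words up to order and reversal
-/

namespace Pool.Agent.TS

open Pool.Agent.TB

namespace CNTM

/-- a good word for `D` -/
def Good (D : ℤ) (x : List ℤ) : Prop :=
  Even x.length ∧ (∀ a ∈ x, a ≠ 0) ∧ (lastv x).2 ∣ D

theorem exists_prime (P A : ℤ) (hP : 0 < P) (hA : IsCoprime A P) (n : ℕ) :
    ∃ l : ℕ, l.Prime ∧ n < l ∧ P ∣ (l : ℤ) + A := by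
  obtain ⟨q, rfl⟩ : ∃ q : ℕ, P = (q : ℤ) := ⟨P.toNat, (Int.toNat_of_nonneg hP.le).symm⟩
  have hq : q ≠ 0 := by
    rintro rfl
    simp at hP
  have : NeZero q := ⟨hq⟩
  have hu : IsUnit ((-A : ℤ) : ZMod q) := by
    have h1 : IsCoprime (-A) (q : ℤ) := hA.neg_left
    obtain ⟨a, b, hab⟩ := h1
    refine IsUnit.of_mul_eq_one ((a : ℤ) : ZMod q) ?_
    have h2 := congrArg (fun z : ℤ => (z : ZMod q)) hab
    push_cast at h2 ⊢
    simp only [ZMod.natCast_self, mul_zero, add_zero] at h2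
    rw [mul_comm]
    exact h2
  obtain ⟨l, hl, hlp, hle⟩ := Nat.forall_exists_prime_gt_and_eq_mod hu n
  refine ⟨l, hlp, hl, ?_⟩
  rw [← ZMod.intCast_zmod_eq_zero_iff_dvd]
  push_cast
  rw [hle]
  push_cast
  ring

/-- the inner part of CNT -/
theorem cnt_inner {P B B' : ℤ} {l : ℕ} (hl : l.Prime) (hlA : P ∣ (l : ℤ) + B) {R : ℤ × ℤ}
    (hR : R.2 * (P * R.1 - B' * R.2) = (l : ℤ)) : P ∣ B - B' ∨ P ∣ B * B' - 1 := by
  obtain ⟨a, b⟩ := R
  have hR' : b * (P * a - B' * b) = (l : ℤ) := hR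
  obtain ⟨k, hk⟩ := hlA
  have hl0 : (l : ℤ) ≠ 0 := by exact_mod_cast hl.ne_zero
  have hb : b ∣ (l : ℤ) := ⟨_, hR'.symm⟩
  have hcases : b = 1 ∨ b = -1 ∨ b = (l : ℤ) ∨ b = -(l : ℤ) := by
    have h2 : b.natAbs ∣ l := by
      have := Int.natAbs_dvd_natAbs.2 hb
      simpa using this
    rcases (Nat.dvd_prime hl).1 h2 with h3 | h3
    · rcases Int.natAbs_eq b with h4 | h4
      · left; rw [h4, h3]; rfl
      · right; left; rw [h4, h3]; rfl
    · rcases Int.natAbs_eq b with h4 | h4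
      · right; right; left; rw [h4, h3]
      · right; right; right; rw [h4, h3]
  rcases hcases with rfl | rfl | rfl | rfl
  · left
    exact ⟨k - a, by linear_combination hk + hR'⟩
  · left
    exact ⟨k + a, by linear_combination hk + hR'⟩
  · right
    have h2 : P * a - B' * (l : ℤ) = 1 := by
      apply mul_left_cancel₀ hl0
      rw [hR', mul_one]
    refine ⟨B' * k - a, ?_⟩
    linear_combination B' * hk + h2
  · right
    have h2 : -(P * a + B' * (l : ℤ)) = 1 := by
      apply mul_left_cancel₀ hl0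
      linear_combination hR'
    refine ⟨B' * k + a, ?_⟩
    linear_combination B' * hk + h2

theorem coprime_eps (hchn : CHN_Stmt) {P : ℤ} (z : List ℤ) (e : ℤ) (he : e = 1 ∨ e = -1)
    (hz : (lastv z).2 = e * P) : IsCoprime (e * (lastv z).1) P := by
  have h1 := FIN2.coprime_A hchn z
  rw [hz] at h1
  rcases he with rfl | rfl
  · simpa using h1
  · rw [neg_one_mul, IsCoprime.neg_right_iff] at h1
    rw [neg_one_mul, IsCoprime.neg_left_iff]
    exact h1

/-- the words are equal up to reversal -/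
theorem words (hchn : CHN_Stmt) (hcfu : CFU_Stmt) (hrvc : RVC_Stmt) {x y : List ℤ}
    (hx : Even x.length) (hy : Even y.length) (hx0 : ∀ a ∈ x, a ≠ 0) (hy0 : ∀ a ∈ y, a ≠ 0)
    {ε ε' P : ℤ} (hε : ε = 1 ∨ ε = -1) (hε' : ε' = 1 ∨ ε' = -1)
    (hP : 0 < P) (hd : (lastv x).2 = ε * P) (hd' : (lastv y).2 = ε' * P)
    (h : P ∣ ε * (lastv x).1 - ε' * (lastv y).1 ∨ P ∣ ε * (lastv x).1 * (ε' * (lastv y).1) - 1) :
    y = x ∨ y = x.reverse := by
  have hcx := coprime_eps hchn x ε hε hd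
  rcases h with h1 | h1
  · left
    exact (FIN2.case1 hcfu hchn hx hy hx0 hy0 hε hε' hP hd hd' h1).symm
  · right
    obtain ⟨h2, h3⟩ := hrvc x hx
    have h4 : (lastv x.reverse).2 = ε * P := by rw [h2, hd]
    have h5 : P ∣ (ε * (lastv x).1) * (ε * (lastv x.reverse).1) - 1 := by
      have h6 : P ∣ (lastv x).1 * (lastv x.reverse).1 - 1 := by
        refine Dvd.dvd.trans ?_ h3
        rw [hd]
        exact Dvd.intro_left ε rfl
      have h7 : (ε * (lastv x).1) * (ε * (lastv x.reverse).1) - 1 =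
          (lastv x).1 * (lastv x.reverse).1 - 1 := by
        rcases hε with rfl | rfl <;> ring
      rw [h7]; exact h6
    have h8 : P ∣ ε * (lastv x.reverse).1 - ε' * (lastv y).1 := by
      have h9 : P ∣ (ε * (lastv x).1) * (ε * (lastv x.reverse).1 - ε' * (lastv y).1) := by
        have h10 := dvd_sub h5 h1
        have h11 : (ε * (lastv x).1) * (ε * (lastv x.reverse).1) - 1 -
            (ε * (lastv x).1 * (ε' * (lastv y).1) - 1) =
            (ε * (lastv x).1) * (ε * (lastv x.reverse).1 - ε' * (lastv y).1) := by ring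
        rwa [h11] at h10
      exact hcx.symm.dvd_of_dvd_mul_left h9
    have hxr : Even x.reverse.length := by rw [List.length_reverse]; exact hx
    have hxr0 : ∀ a ∈ x.reverse, a ≠ 0 := fun a ha => hx0 a (List.mem_reverse.mp ha)
    exact (FIN2.case1 hcfu hchn hxr hy hxr0 hy0 hε hε' hP h4 hd' h8).symm

/-- the sign of the last entry -/
theorem exists_sign (d : ℤ) : ∃ ε : ℤ, (ε = 1 ∨ ε = -1) ∧ d = ε * |d| := by
  rcases abs_choice d with h | h
  · exact ⟨1, Or.inl rfl, by rw [h]; ring⟩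
  · exact ⟨-1, Or.inr rfl, by rw [h]; ring⟩

/-- if `y` has a vector with the value `(D/P) l` then `y` is `x` or its reverse -/
theorem key (hchn : CHN_Stmt) (hcfu : CFU_Stmt) (hrvc : RVC_Stmt) {D : ℤ} (hD : Odd D)
    {x y : List ℤ} (hx : Good D x) (hy : Good D y) {ε P m : ℤ} (hε : ε = 1 ∨ ε = -1)
    (hP : 0 < P) (hd : (lastv x).2 = ε * P) (hm : D = P * m)
    (hle : |(lastv y).2| ≤ P) {l : ℕ} (hl : l.Prime) (hlD : D.natAbs < l)
    (hlA : P ∣ (l : ℤ) + ε * (lastv x).1) {R : ℤ × ℤ}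
    (hR : D / (lastv y).2 * Nf y R = m * l) : y = x ∨ y = x.reverse := by
  obtain ⟨hx1, hx2, hx3⟩ := hx
  obtain ⟨hy1, hy2, k, hk⟩ := hy
  have hD0 : D ≠ 0 := by
    rintro rfl
    simp at hD
  have hdy0 : (lastv y).2 ≠ 0 := by
    intro h
    rw [h, zero_mul] at hk
    exact hD0 hk
  have hdiv : D / (lastv y).2 = k := by
    rw [hk]
    exact Int.mul_ediv_cancel_left k hdy0
  rw [hdiv] at hR
  -- `P * Nf y R = d_y * l`
  have h1 : P * Nf y R = (lastv y).2 * l := by
    apply mul_left_cancel₀ hD0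
    calc D * (P * Nf y R) = (lastv y).2 * k * (P * Nf y R) := by rw [← hk]
      _ = (lastv y).2 * P * (k * Nf y R) := by ring
      _ = (lastv y).2 * P * (m * l) := by rw [hR]
      _ = (P * m) * ((lastv y).2 * l) := by ring
      _ = D * ((lastv y).2 * l) := by rw [← hm]
  have hcop : IsCoprime P (l : ℤ) := by
    have h2 : Nat.Coprime P.natAbs l := by
      rw [Nat.coprime_comm]
      refine (Nat.Prime.coprime_iff_not_dvd hl).2 ?_
      intro h3
      have h4 : P.natAbs ∣ D.natAbs := Int.natAbs_dvd_natAbs.2 ⟨m, hm⟩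
      have h5 := Nat.le_of_dvd (Int.natAbs_pos.2 hD0) (h3.trans h4)
      omega
    rw [Int.isCoprime_iff_gcd_eq_one]
    simpa [Int.gcd] using h2
  have h2 : P ∣ (lastv y).2 := hcop.dvd_of_dvd_mul_right ⟨_, h1.symm⟩
  obtain ⟨ε', hε', he'⟩ := exists_sign (lastv y).2
  have h3 : |(lastv y).2| = P :=
    le_antisymm hle (Int.le_of_dvd (abs_pos.2 hdy0) ((dvd_abs _ _).2 h2))
  rw [h3] at he'
  have h4 : Nf y R = ε' * l := by
    apply mul_left_cancel₀ hP.ne'
    rw [h1]
    nth_rewrite 1 [he']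
    ring
  have h5 := (FIN2.nf_iff hε' he' (l : ℤ) R).1 h4
  exact words hchn hcfu hrvc hx1 hy1 hx2 hy2 hε hε' hP hd he' (cnt_inner hl hlA h5)

theorem rc_finite {e M : ℤ} {x : List ℤ} (hd : (lastv x).2 ≠ 0) (hM : M ≠ 0) :
    {R : ℤ × ℤ | e * Nf x R = M}.Finite := by
  have h1 : ((Finset.Icc (-|M|) |M| : Finset ℤ) : Set ℤ).Finite := Finset.finite_toSet _
  refine Set.Finite.of_finite_image (f := Prod.snd) (h1.subset ?_) ?_
  · rintro _ ⟨R, hR, rfl⟩
    have hR' : e * Nf x R = M := hR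
    rw [FIN2.nf_eq] at hR'
    have h2 : R.2 ∣ M := ⟨e * ((lastv x).2 * R.1 - (lastv x).1 * R.2), by rw [← hR']; ring⟩
    have h3 : |R.2| ≤ |M| := Int.le_of_dvd (abs_pos.2 hM) ((abs_dvd_abs _ _).2 h2)
    rw [Finset.coe_Icc, Set.mem_Icc]
    exact ⟨by linarith [neg_abs_le R.2], by linarith [le_abs_self R.2]⟩
  · intro R hR S hS hRS
    have hR' : e * Nf x R = M := hR
    have hS' : e * Nf x S = M := hS
    rw [FIN2.nf_eq] at hR' hS'
    have e' : R.2 = S.2 := hRS
    have he : e ≠ 0 := by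
      intro h
      rw [h, zero_mul] at hR'
      exact hM hR'.symm
    have hne : R.2 ≠ 0 := by
      intro h
      rw [h, zero_mul, mul_zero] at hR'
      exact hM hR'.symm
    rw [← e'] at hS'
    have h4 := mul_left_cancel₀ hne (mul_left_cancel₀ he (hR'.trans hS'.symm))
    have h5 : (lastv x).2 * R.1 = (lastv x).2 * S.1 := by linarith
    exact Prod.ext (mul_left_cancel₀ hd h5) e'

/-- the main step -/
theorem step (hchn : CHN_Stmt) (hcfu : CFU_Stmt) (hrvc : RVC_Stmt) {D : ℤ} (hD : Odd D)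
    {xs ys : List (List ℤ)} (hxs : ∀ x ∈ xs, Good D x) (hys : ∀ y ∈ ys, Good D y)
    (hc : ∀ M : ℤ, Odd M → (xs.map fun x => rc (D / (lastv x).2) x M).sum =
      (ys.map fun y => rc (D / (lastv y).2) y M).sum)
    {x : List ℤ} (hx : x ∈ xs) (hmax : ∀ y ∈ ys, |(lastv y).2| ≤ |(lastv x).2|) :
    ∃ y ∈ ys, y = x ∨ y = x.reverse := by
  have hgx := hxs x hx
  have hD0 : D ≠ 0 := by
    rintro rfl
    simp at hD
  have hdx0 : (lastv x).2 ≠ 0 := by
    intro h
    have h1 := hgx.2.2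
    rw [h, zero_dvd_iff] at h1
    exact hD0 h1
  obtain ⟨ε, hε, he⟩ := exists_sign (lastv x).2
  have hP : 0 < |(lastv x).2| := abs_pos.2 hdx0
  obtain ⟨m, hm⟩ : |(lastv x).2| ∣ D := (abs_dvd _ _).2 hgx.2.2
  obtain ⟨l, hl, hlD, hlA⟩ := exists_prime |(lastv x).2| (ε * (lastv x).1) hP
    (coprime_eps hchn x ε hε he) (D.natAbs + 2)
  have hm_odd : Odd m := by
    rw [hm, Int.odd_mul] at hD
    exact hD.2
  have hl_odd : Odd (l : ℤ) := by
    rw [Int.odd_coe_nat]
    exact hl.odd_of_ne_two (by omega)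
  have hM : Odd (m * l) := hm_odd.mul hl_odd
  have hM0 : m * (l : ℤ) ≠ 0 := by
    intro h
    rw [h] at hM
    simp at hM
  -- `x` has a vector
  have hpos : 0 < rc (D / (lastv x).2) x (m * l) := by
    refine (Set.ncard_pos (rc_finite hdx0 hM0)).2 ?_
    obtain ⟨k, hk⟩ := hlA
    refine ⟨(k, 1), ?_⟩
    show D / (lastv x).2 * Nf x (k, 1) = m * l
    have h1 : Nf x (k, 1) = ε * l := by
      refine (FIN2.nf_iff hε he (l : ℤ) (k, 1)).2 ?_
      show 1 * (|(lastv x).2| * k - (ε * (lastv x).1) * 1) = (l : ℤ)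
      linarith
    have hεε : ε * ε = 1 := by rcases hε with rfl | rfl <;> rfl
    have h2 : D / (lastv x).2 = ε * m := by
      have h3 : D = (lastv x).2 * (ε * m) := by
        calc D = |(lastv x).2| * m := hm
          _ = (ε * ε) * (|(lastv x).2| * m) := by rw [hεε, one_mul]
          _ = (ε * |(lastv x).2|) * (ε * m) := by ring
          _ = (lastv x).2 * (ε * m) := by rw [← he]
      nth_rewrite 1 [h3]
      exact Int.mul_ediv_cancel_left _ hdx0
    rw [h1, h2]
    linear_combination (m * l) * hεε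
  have hsum : 0 < (ys.map fun y => rc (D / (lastv y).2) y (m * l)).sum := by
    rw [← hc _ hM]
    have h1 : rc (D / (lastv x).2) x (m * l) ≤
        (xs.map fun x => rc (D / (lastv x).2) x (m * l)).sum :=
      List.le_sum_of_mem (List.mem_map_of_mem (f := fun x => rc (D / (lastv x).2) x (m * l)) hx)
    omega
  obtain ⟨y, hy, hry⟩ : ∃ y ∈ ys, rc (D / (lastv y).2) y (m * l) ≠ 0 := by
    by_contra hcon
    push Not at hcon
    have h1 : (ys.map fun y => rc (D / (lastv y).2) y (m * l)).sum = 0 := by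
      rw [List.sum_eq_zero_iff]
      intro a ha
      obtain ⟨y, hy, rfl⟩ := List.mem_map.1 ha
      exact hcon y hy
    omega
  obtain ⟨R, hR⟩ := Set.nonempty_of_ncard_ne_zero hry
  exact ⟨y, hy, key hchn hcfu hrvc hD hgx (hys y hy) hε hP he hm (hmax y hy) hl (by omega) hlA hR⟩

theorem exists_max {xs : List (List ℤ)} (h : xs ≠ []) :
    ∃ x ∈ xs, ∀ z ∈ xs, |(lastv z).2| ≤ |(lastv x).2| := by
  have h1 : xs.toFinset.Nonempty := by
    obtain ⟨a, t, rfl⟩ := List.exists_cons_of_ne_nil h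
    exact ⟨a, by simp⟩
  obtain ⟨x, hx, hx'⟩ := Finset.exists_max_image xs.toFinset (fun z => |(lastv z).2|) h1
  exact ⟨x, List.mem_toFinset.1 hx, fun z hz => hx' z (List.mem_toFinset.2 hz)⟩

theorem pair (hchn : CHN_Stmt) (hcfu : CFU_Stmt) (hrvc : RVC_Stmt) {D : ℤ} (hD : Odd D)
    {xs ys : List (List ℤ)} (hxs : ∀ x ∈ xs, Good D x) (hys : ∀ y ∈ ys, Good D y)
    (hc : ∀ M : ℤ, Odd M → (xs.map fun x => rc (D / (lastv x).2) x M).sum =
      (ys.map fun y => rc (D / (lastv y).2) y M).sum) (hx : xs ≠ []) (hy : ys ≠ []) :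
    ∃ x ∈ xs, ∃ y ∈ ys, y = x ∨ y = x.reverse := by
  obtain ⟨x, hx1, hx2⟩ := exists_max hx
  obtain ⟨y, hy1, hy2⟩ := exists_max hy
  rcases le_total |(lastv y).2| |(lastv x).2| with h | h
  · obtain ⟨z, hz, hz'⟩ := step hchn hcfu hrvc hD hxs hys hc hx1
      (fun z hz => (hy2 z hz).trans h)
    exact ⟨x, hx1, z, hz, hz'⟩
  · obtain ⟨z, hz, hz'⟩ := step hchn hcfu hrvc hD hys hxs (fun M hM => (hc M hM).symm) hy1
      (fun z hz => (hx2 z hz).trans h)
    refine ⟨z, hz, y, hy1, ?_⟩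
    rcases hz' with h1 | h1
    · exact Or.inl h1.symm
    · right
      rw [h1, List.reverse_reverse]

theorem main (hchn : CHN_Stmt) (hcfu : CFU_Stmt) (hrvc : RVC_Stmt) (hrcr : RCR_Stmt) (D : ℤ)
    (hD : Odd D) : ∀ n : ℕ, ∀ xs ys : List (List ℤ), xs.length = n → ys.length = n →
    (∀ x ∈ xs, Good D x) → (∀ y ∈ ys, Good D y) →
    (∀ M : ℤ, Odd M → (xs.map fun x => rc (D / (lastv x).2) x M).sum =
      (ys.map fun y => rc (D / (lastv y).2) y M).sum) →
    ∃ zs, ys.Perm zs ∧ List.Forall₂ (fun x z => z = x ∨ z = x.reverse) xs zs := by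
  intro n
  induction n with
  | zero =>
    intro xs ys hx hy _ _ _
    obtain rfl := List.length_eq_zero_iff.1 hx
    obtain rfl := List.length_eq_zero_iff.1 hy
    exact ⟨[], List.Perm.refl _, List.Forall₂.nil⟩
  | succ n ih =>
    intro xs ys hx hy hxs hys hc
    have hxn : xs ≠ [] := by
      rintro rfl
      simp at hx
    have hyn : ys ≠ [] := by
      rintro rfl
      simp at hy
    obtain ⟨x, hx1, y, hy1, hxy⟩ := pair hchn hcfu hrvc hD hxs hys hc hxn hyn
    have hrc : ∀ M, rc (D / (lastv y).2) y M = rc (D / (lastv x).2) x M := by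
      intro M
      rcases hxy with rfl | rfl
      · rfl
      · rw [(hrvc x (hxs x hx1).1).1]
        exact hrcr x (hxs x hx1).1 _ M
    obtain ⟨zs, hz1, hz2⟩ := ih (xs.erase x) (ys.erase y)
      (by rw [List.length_erase_of_mem hx1, hx]; rfl)
      (by rw [List.length_erase_of_mem hy1, hy]; rfl)
      (fun z hz => hxs z (List.mem_of_mem_erase hz))
      (fun z hz => hys z (List.mem_of_mem_erase hz))
      (by
        intro M hM
        have h1 := hc M hM
        rw [((List.perm_cons_erase hx1).map _).sum_eq, ((List.perm_cons_erase hy1).map _).sum_eq,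
          List.map_cons, List.map_cons, List.sum_cons, List.sum_cons, hrc M] at h1
        exact Nat.add_left_cancel h1)
    obtain ⟨ws, hw1, hw2⟩ := List.perm_comp_forall₂ (List.perm_cons_erase hx1)
      (List.Forall₂.cons hxy hz2)
    exact ⟨ws, (List.perm_cons_erase hy1).trans ((hz1.cons y).trans hw2.symm), hw1⟩

end CNTM

/-- CNTM: the sum of the counting functions determines the words up to order and reversal. -/
theorem cntm (hchn : CHN_Stmt) (hcfu : CFU_Stmt) (hrvc : RVC_Stmt) (hrcr : RCR_Stmt) :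
    CNTM_Stmt := by
  intro D hD xs ys hlen hxs hys hc
  exact CNTM.main hchn hcfu hrvc hrcr D hD xs.length xs ys rfl hlen.symm hxs hys hc

end Pool.Agent.TS
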