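import Pool.Agent.TS.Stmts

/-!
The diagram of a 2-bridge knot commutes with every (1,1)-diagram.
-/

namespace Pool.Agent.TS

open Pool.Agent.LibH11.Sliced Pool.Agent.TB Pool.Agent.TwoBr

namespace COM

theorem cx {N M M' : ℕ} {x y : Diag} (u v : Diag) (hu : cnt N u = some M)
    (hx : cnt M x = some M') (hv : cnt M' v ≠ none) (h : EqD M x y) :
    EqD N (u ++ (x ++ v)) (u ++ (y ++ v)) :=
  (h.right v (by rw [cnt_app hx]; exact hv)).left u hu

theorem cnt_rep (e : Bool) : ∀ n : ℕ, cnt 2 (List.replicate n (Kind.crs e, 0)) = some 2 := by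
  intro n
  induction n with
  | zero => rfl
  | succ n ih =>
    rw [List.replicate_succ]
    simpa [cnt, Kind.ins, Kind.outs] using ih

theorem tw_eq_sh (p : ℕ) (x : ℤ) : tw p x = sh p (tw 0 x) := by
  unfold tw sh
  rw [List.map_replicate, Nat.zero_add]

theorem cnt_tw0 (x : ℤ) : cnt 2 (tw 0 x) = some 2 := cnt_rep _ _

theorem cnt_tw {p : ℕ} (hp : p ≤ 1) (x : ℤ) : cnt 3 (tw p x) = some 3 := by
  rcases Nat.le_one_iff_eq_zero_or_eq_one.1 hp with rfl | rfl
  · exact cnt_widen 1 _ _ _ (cnt_tw0 x)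
  · rw [tw_eq_sh]
    have := cnt_sh 1 (tw 0 x) 2
    rw [cnt_tw0] at this
    exact this

theorem cnt_twd : ∀ (l : List ℤ) {p : ℕ}, p ≤ 1 → cnt 3 (twd p l) = some 3 := by
  intro l
  induction l with
  | nil => intro p _; rfl
  | cons a l ih =>
    intro p hp
    rw [twd, cnt_app (cnt_tw hp a)]
    exact ih (by omega)

theorem cnt_bead {f : Diag} (hf : cnt 1 f = some 1) {j : ℕ} (hj : j ≤ 2) :
    cnt 3 (sh j f) = some 3 := by
  have h1 := cnt_widen (2 - j) _ _ _ hf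
  have h2 := cnt_sh j f (1 + (2 - j))
  rw [h1] at h2
  have h3 : 1 + (2 - j) + j = 3 := by omega
  simp only [Option.map_some, h3] at h2
  exact h2

variable (hb : BEAD_Stmt)

include hb

/-- A bead on the first strand passes two crossings. -/
theorem two_a {f : Diag} (hf : cnt 1 f = some 1) (e : Bool) :
    EqD 2 (f ++ [(Kind.crs e, 0), (Kind.crs e, 0)]) ([(Kind.crs e, 0), (Kind.crs e, 0)] ++ f) := by
  obtain ⟨h1, h2, -⟩ := hb f hf
  have hc : cnt 2 [(Kind.crs e, 0)] = some 2 := rfl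
  have hf2 : cnt 2 f = some 2 := cnt_widen 1 _ _ _ hf
  have e1 : EqD 2 ((f ++ [(Kind.crs e, 0)]) ++ [(Kind.crs e, 0)])
      (([(Kind.crs e, 0)] ++ sh 1 f) ++ [(Kind.crs e, 0)]) := by
    refine (h1 e).right _ ?_
    rw [cnt_app (M := 2), hc]
    · simp
    · rw [cnt_app hf2, hc]
  have e2 : EqD 2 ([(Kind.crs e, 0)] ++ (sh 1 f ++ [(Kind.crs e, 0)]))
      ([(Kind.crs e, 0)] ++ ([(Kind.crs e, 0)] ++ f)) := (h2 e).left _ hc
  simp only [List.append_assoc, List.cons_append, List.nil_append] at e1 e2 ⊢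
  exact e1.trans e2

/-- A bead on the second strand passes two crossings. -/
theorem two_b {f : Diag} (hf : cnt 1 f = some 1) (e : Bool) :
    EqD 2 (sh 1 f ++ [(Kind.crs e, 0), (Kind.crs e, 0)])
      ([(Kind.crs e, 0), (Kind.crs e, 0)] ++ sh 1 f) := by
  obtain ⟨h1, h2, -⟩ := hb f hf
  have hc : cnt 2 [(Kind.crs e, 0)] = some 2 := rfl
  have hf2 : cnt 2 (sh 1 f) = some 2 := by
    have := cnt_sh 1 f 1
    rw [hf] at this
    exact this
  have e1 : EqD 2 ((sh 1 f ++ [(Kind.crs e, 0)]) ++ [(Kind.crs e, 0)])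
      (([(Kind.crs e, 0)] ++ f) ++ [(Kind.crs e, 0)]) := by
    refine (h2 e).right _ ?_
    rw [cnt_app (M := 2), hc]
    · simp
    · rw [cnt_app hf2, hc]
  have e2 : EqD 2 ([(Kind.crs e, 0)] ++ (f ++ [(Kind.crs e, 0)]))
      ([(Kind.crs e, 0)] ++ ([(Kind.crs e, 0)] ++ sh 1 f)) := (h1 e).left _ hc
  simp only [List.append_assoc, List.cons_append, List.nil_append] at e1 e2 ⊢
  exact e1.trans e2

omit hb in
/-- Iterated passing. -/
theorem iter {b : Diag} (hbc : cnt 2 b = some 2) {e : Bool}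
    (h : EqD 2 (b ++ [(Kind.crs e, 0), (Kind.crs e, 0)])
      ([(Kind.crs e, 0), (Kind.crs e, 0)] ++ b)) : ∀ n : ℕ,
    EqD 2 (b ++ List.replicate (2 * n) (Kind.crs e, 0))
      (List.replicate (2 * n) (Kind.crs e, 0) ++ b) := by
  intro n
  induction n with
  | zero => simpa using EqD.refl b
  | succ n ih =>
    have e0 : List.replicate (2 * (n + 1)) (Kind.crs e, 0) =
        [(Kind.crs e, 0), (Kind.crs e, 0)] ++ List.replicate (2 * n) (Kind.crs e, 0) := by
      rw [show 2 * (n + 1) = 2 * n + 1 + 1 by ring, List.replicate_succ, List.replicate_succ]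
      rfl
    rw [e0]
    have hc : cnt 2 [(Kind.crs e, 0), (Kind.crs e, 0)] = some 2 := rfl
    have e1 : EqD 2 ((b ++ [(Kind.crs e, 0), (Kind.crs e, 0)]) ++
        List.replicate (2 * n) (Kind.crs e, 0))
        (([(Kind.crs e, 0), (Kind.crs e, 0)] ++ b) ++
          List.replicate (2 * n) (Kind.crs e, 0)) := by
      refine h.right _ ?_
      rw [cnt_app (M := 2), cnt_rep]
      · simp
      · rw [cnt_app hbc, hc]
    have e2 := ih.left _ hc
    simp only [List.append_assoc] at e1 e2 ⊢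
    exact e1.trans e2

theorem tw_a {f : Diag} (hf : cnt 1 f = some 1) (a : ℤ) :
    EqD 2 (f ++ tw 0 a) (tw 0 a ++ f) :=
  iter (cnt_widen 1 _ _ _ hf) (two_a hb hf _) _

theorem tw_b {f : Diag} (hf : cnt 1 f = some 1) (a : ℤ) :
    EqD 2 (sh 1 f ++ tw 0 a) (tw 0 a ++ sh 1 f) := by
  refine iter ?_ (two_b hb hf _) _
  have := cnt_sh 1 f 1
  rw [hf] at this
  exact this

/-- A bead on any strand passes a twist region. -/
theorem pass_tw {f : Diag} (hf : cnt 1 f = some 1) {p j : ℕ} (hp : p ≤ 1) (hj : j ≤ 2) (a : ℤ) :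
    EqD 3 (sh j f ++ tw p a) (tw p a ++ sh j f) := by
  have hj' : j = 0 ∨ j = 1 ∨ j = 2 := by omega
  rcases Nat.le_one_iff_eq_zero_or_eq_one.1 hp with rfl | rfl
  · rcases hj' with rfl | rfl | rfl
    · rw [sh_zero]
      exact (tw_a hb hf a).widen 1
    · exact (tw_b hb hf a).widen 1
    · exact (far_words (tw 0 a) f 2 2 1 (cnt_tw0 a) (by rw [hf]; simp)).symm
  · rw [tw_eq_sh]
    rcases hj' with rfl | rfl | rfl
    · rw [sh_zero]
      exact far_words f (tw 0 a) 1 1 2 hf (by rw [cnt_tw0]; simp)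
    · have := (tw_a hb hf a).sh 1
      rw [sh_append, sh_append] at this
      exact this
    · have := (tw_b hb hf a).sh 1
      rw [sh_append, sh_append, sh_sh] at this
      exact this

theorem pass_twd {f : Diag} (hf : cnt 1 f = some 1) {j : ℕ} (hj : j ≤ 2) : ∀ (l : List ℤ) {p : ℕ},
    p ≤ 1 → EqD 3 (sh j f ++ twd p l) (twd p l ++ sh j f) := by
  intro l
  induction l with
  | nil =>
    intro p _
    simpa [twd] using EqD.refl (sh j f)
  | cons a l ih =>
    intro p hp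
    have h1 := pass_tw hb hf hp hj a
    have h2 := ih (p := 1 - p) (by omega)
    have e1 : EqD 3 ((sh j f ++ tw p a) ++ twd (1 - p) l) ((tw p a ++ sh j f) ++ twd (1 - p) l) := by
      refine h1.right _ ?_
      rw [cnt_app (M := 3), cnt_twd l (by omega)]
      · simp
      · rw [cnt_app (cnt_bead hf hj), cnt_tw hp]
    have e2 := h2.left (tw p a) (cnt_tw hp a)
    rw [twd]
    simp only [List.append_assoc] at e1 e2 ⊢
    exact e1.trans e2

end COM

open COM in
theorem com (hb : BEAD_Stmt) : COM_Stmt := by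
  intro x f hf
  obtain ⟨-, -, hgc, hhc, hcap, hcup, hhf⟩ := hb f hf
  set g : Diag := [(Kind.cup, 0)] ++ sh 1 f ++ [(Kind.cap, 1)] with hg
  set h : Diag := [(Kind.cup, 1)] ++ sh 1 g ++ [(Kind.cap, 0)] with hh
  clear_value h
  clear_value g
  set T : Diag := twd 0 x with hT
  have hTc : cnt 3 T = some 3 := cnt_twd x (by omega)
  have hcu : cnt 1 [(Kind.cup, 1)] = some 3 := rfl
  have hca : cnt 3 [(Kind.cap, 0)] = some 1 := rfl
  have hTca : cnt 3 (T ++ [(Kind.cap, 0)]) = some 1 := by rw [cnt_app hTc, hca]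
  have hf3 : cnt 3 f = some 3 := by simpa [sh_zero] using cnt_bead hf (j := 0) (by omega)
  have hg3 : cnt 3 (sh 1 g) = some 3 := cnt_bead hgc (by omega)
  have hh3 : cnt 3 (sh 2 h) = some 3 := cnt_bead hhc (by omega)
  have hk : kdiag x = [(Kind.cup, 1)] ++ (T ++ [(Kind.cap, 0)]) := rfl
  rw [hk]
  -- 1
  have s1 : EqD 1 (f ++ ([(Kind.cup, 1)] ++ (T ++ [(Kind.cap, 0)])))
      ([(Kind.cup, 1)] ++ (f ++ (T ++ [(Kind.cap, 0)]))) := by
    have := far_words f [(Kind.cup, 0)] 1 1 0 hf (by simp [cnt, Kind.ins])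
    have h1 : EqD 1 (f ++ [(Kind.cup, 1)]) ([(Kind.cup, 1)] ++ f) := this
    have h2 := h1.right (T ++ [(Kind.cap, 0)]) (by
      rw [cnt_app (M := 3), hTca]
      · simp
      · rw [cnt_app hf, hcu])
    simpa only [List.append_assoc] using h2
  -- 2
  have s2 : EqD 1 ([(Kind.cup, 1)] ++ (f ++ (T ++ [(Kind.cap, 0)])))
      ([(Kind.cup, 1)] ++ (T ++ (f ++ [(Kind.cap, 0)]))) := by
    have h1 := pass_twd hb hf (j := 0) (by omega) x (p := 0) (by omega)
    rw [sh_zero] at h1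
    have h2 := cx [(Kind.cup, 1)] [(Kind.cap, 0)] hcu
      (show cnt 3 (f ++ T) = some 3 by rw [cnt_app hf3, hTc]) (by rw [hca]; simp) h1
    simpa only [List.append_assoc] using h2
  -- 3
  have s3 : EqD 1 ([(Kind.cup, 1)] ++ (T ++ (f ++ [(Kind.cap, 0)])))
      ([(Kind.cup, 1)] ++ (T ++ (sh 1 g ++ [(Kind.cap, 0)]))) :=
    ((hcap.widen 1).left T hTc).left _ hcu
  -- 4
  have s4 : EqD 1 ([(Kind.cup, 1)] ++ (T ++ (sh 1 g ++ [(Kind.cap, 0)])))
      ([(Kind.cup, 1)] ++ (sh 1 g ++ (T ++ [(Kind.cap, 0)]))) := by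
    have h1 := (pass_twd hb hgc (j := 1) (by omega) x (p := 0) (by omega)).symm
    have h2 := cx [(Kind.cup, 1)] [(Kind.cap, 0)] hcu
      (show cnt 3 (T ++ sh 1 g) = some 3 by rw [cnt_app hTc, hg3]) (by rw [hca]; simp) h1
    simpa only [List.append_assoc] using h2
  -- 5
  have s5 : EqD 1 ([(Kind.cup, 1)] ++ (sh 1 g ++ (T ++ [(Kind.cap, 0)])))
      ([(Kind.cup, 1)] ++ (sh 2 h ++ (T ++ [(Kind.cap, 0)]))) := by
    have h1 := hcup.sh 1
    rw [sh_append, sh_append, sh_sh] at h1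
    have h2 : EqD 1 ([(Kind.cup, 1)] ++ sh 1 g) ([(Kind.cup, 1)] ++ sh 2 h) := h1
    have h3 := h2.right (T ++ [(Kind.cap, 0)]) (by
      rw [cnt_app (M := 3), hTca]
      · simp
      · rw [cnt_app hcu, hg3])
    simpa only [List.append_assoc] using h3
  -- 6
  have s6 : EqD 1 ([(Kind.cup, 1)] ++ (sh 2 h ++ (T ++ [(Kind.cap, 0)])))
      ([(Kind.cup, 1)] ++ (T ++ (sh 2 h ++ [(Kind.cap, 0)]))) := by
    have h1 := pass_twd hb hhc (j := 2) (by omega) x (p := 0) (by omega)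
    have h2 := cx [(Kind.cup, 1)] [(Kind.cap, 0)] hcu
      (show cnt 3 (sh 2 h ++ T) = some 3 by rw [cnt_app hh3, hTc]) (by rw [hca]; simp) h1
    simpa only [List.append_assoc] using h2
  -- 7
  have s7 : EqD 1 ([(Kind.cup, 1)] ++ (T ++ (sh 2 h ++ [(Kind.cap, 0)])))
      ([(Kind.cup, 1)] ++ (T ++ ([(Kind.cap, 0)] ++ h))) := by
    have h1 := (far_words [(Kind.cap, 0)] h 2 0 1 rfl (by rw [hhc]; simp)).symm
    rw [sh_zero] at h1
    exact (h1.left T hTc).left _ hcu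
  -- 8
  have s8 : EqD 1 ([(Kind.cup, 1)] ++ (T ++ ([(Kind.cap, 0)] ++ h)))
      ([(Kind.cup, 1)] ++ (T ++ ([(Kind.cap, 0)] ++ f))) :=
    ((hhf.left _ hca).left T hTc).left _ hcu
  have s9 := s1.trans (s2.trans (s3.trans (s4.trans (s5.trans (s6.trans (s7.trans s8))))))
  simpa only [List.append_assoc] using s9

end Pool.Agent.TS
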