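import Pool.Agent.TS.Stmts
import Pool.Agent.TB.Dsc

/-!
Finite type invariants separate the connected sums of 2-bridge knots: dyadic descent for linear
combinations (module DSCM).
-/

open Filter Topology
open scoped BigOperators Real

namespace Pool.Agent.TS
namespace DSCM

open Pool.Agent.TB

theorem sum_comm_list {ι α : Type*} [Fintype ι] (L : List α) (F : α → ι → ℂ) :
    ∑ i, (L.map fun t => F t i).sum = (L.map fun t => ∑ i, F t i).sum := by
  induction L with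
  | nil => simp
  | cons a l ih => simp only [List.map_cons, List.sum_cons, Finset.sum_add_distrib, ih]

theorem map_congr_sum {α : Type*} (L : List α) (f g : α → ℂ) (h : ∀ t ∈ L, f t = g t) :
    (L.map f).sum = (L.map g).sum :=
  congrArg List.sum (List.map_congr_left h)

theorem sum_lin {α : Type*} (L : List α) (f g : α → ℂ) (a b : ℂ) :
    (L.map fun t => a * f t + b * g t).sum = a * (L.map f).sum + b * (L.map g).sum := by
  induction L with
  | nil => simp
  | cons x l ih =>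
    simp only [List.map_cons, List.sum_cons, ih]
    ring

theorem sum_mul_r {α : Type*} (L : List α) (f : α → ℂ) (a : ℂ) :
    (L.map fun t => f t * a).sum = (L.map f).sum * a := by
  induction L with
  | nil => simp
  | cons x l ih =>
    simp only [List.map_cons, List.sum_cons, ih]
    ring

theorem sum_mul_l {α : Type*} (L : List α) (f : α → ℂ) (a : ℂ) :
    (L.map fun t => a * f t).sum = a * (L.map f).sum := by
  induction L with
  | nil => simp
  | cons x l ih =>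
    simp only [List.map_cons, List.sum_cons, ih]
    ring

/-- The weight of a list. -/
noncomputable def W (L : List (ℂ × ℤ × List ℤ)) : ℂ :=
  (L.map fun t => t.1 * ((t.2.2.sum : ℤ) : ℂ)).sum

/-- The linear combination of the sums `Sx` is constant. -/
theorem delta (hc : CHN_Stmt) (L : List (ℂ × ℤ × List ℤ)) (hx : ∀ t ∈ L, Even t.2.2.length)
    (H : ∀ s : ℕ, 2 ≤ s → ∀ τ : ZMod (2 ^ s), IsUnit τ →
      (L.map fun t => t.1 * Sx (2 ^ s) t.2.2 ((t.2.1 : ZMod (2 ^ s)) * τ)).sum =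
        (((2 ^ s : ℕ) : ℂ) ^ 2 - 1) / 6 * W L) :
    ∀ s : ℕ, 1 ≤ s → ∀ τ : ZMod (2 ^ s),
      (L.map fun t => t.1 * Sx (2 ^ s) t.2.2 ((t.2.1 : ZMod (2 ^ s)) * τ)).sum =
        (((2 ^ s : ℕ) : ℂ) ^ 2 - 1) / 6 * W L := by
  intro s hs
  induction s, hs using Nat.le_induction with
  | base =>
    intro τ
    have h1 : ∀ t ∈ L, t.1 * Sx (2 ^ 1) t.2.2 ((t.2.1 : ZMod (2 ^ 1)) * τ) =
        1 / 2 * (t.1 * ((t.2.2.sum : ℤ) : ℂ)) := by
      intro t ht
      rw [DSC.Sx_two hc (2 ^ 1) (by norm_num) t.2.2 (hx t ht)]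
      ring
    rw [map_congr_sum L _ _ h1, sum_mul_l]
    unfold W
    push_cast
    ring
  | succ s hs ih =>
    intro τ
    by_cases hu : IsUnit τ
    · exact H (s + 1) (by omega) τ hu
    · obtain ⟨k, rfl⟩ := ZMod.intCast_surjective τ
      have hk : Even k := by
        by_contra hodd
        rw [Int.not_even_iff_odd] at hodd
        apply hu
        rw [ZMod.coe_int_isUnit_iff_isCoprime]
        push_cast
        exact IsCoprime.pow_left (Int.isCoprime_iff_gcd_eq_one.2 (by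
          obtain ⟨r, hr⟩ := hodd
          subst hr
          have := Int.gcd_add_mul_left_right 2 1 r
          rw [add_comm, this]
          simp))
      obtain ⟨t0, rfl⟩ := hk
      have h1 : ∀ t ∈ L, t.1 * Sx (2 ^ (s + 1)) t.2.2
          ((t.2.1 : ZMod (2 ^ (s + 1))) * ((t0 + t0 : ℤ) : ZMod (2 ^ (s + 1)))) =
          4 * (t.1 * Sx (2 ^ s) t.2.2 ((t.2.1 : ZMod (2 ^ s)) * ((t0 : ℤ) : ZMod (2 ^ s)))) +
            1 / 2 * (t.1 * ((t.2.2.sum : ℤ) : ℂ)) := by
        intro t _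
        have e1 : (t.2.1 : ZMod (2 ^ (s + 1))) * ((t0 + t0 : ℤ) : ZMod (2 ^ (s + 1))) =
            ((2 * (t.2.1 * t0) : ℤ) : ZMod (2 ^ (s + 1))) := by
          push_cast; ring
        have e3 : (((t.2.1 * t0 : ℤ)) : ZMod (2 ^ s)) =
            (t.2.1 : ZMod (2 ^ s)) * ((t0 : ℤ) : ZMod (2 ^ s)) := by
          push_cast; ring
        rw [e1, DSC.double_Sx hc (2 ^ s) (2 ^ (s + 1)) (by ring) t.2.2 (t.2.1 * t0), e3]
        ring
      rw [map_congr_sum L _ _ h1, sum_lin, ih ((t0 : ℤ) : ZMod (2 ^ s))]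
      have e5 : (L.map fun t => t.1 * ((t.2.2.sum : ℤ) : ℂ)).sum = W L := rfl
      rw [e5]
      push_cast
      ring

/-- Fourier inversion for one word. -/
theorem fourier (n : ℕ) [NeZero n] (hn : Even n) (x : List ℤ) (hx : Even x.length) (e : ℤ)
    (hc : CHN_Stmt) (M : ℤ) (hM : Odd M) :
    ∑ τ : ZMod n, Sx n x (e * τ) * ZMod.stdAddChar (τ * (-(M : ZMod n))) =
      (n : ℂ) / 4 * Ze n e x (M : ℤ) := by
  have key : ∀ c : ZMod n, ∑ τ : ZMod n, ZMod.stdAddChar ((e : ZMod n) * τ * c) *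
      ZMod.stdAddChar (τ * (-(M : ZMod n))) =
        if (e : ZMod n) * c = ((M : ℤ) : ZMod n) then (n : ℂ) else 0 := by
    intro c
    have e1 : ∀ τ : ZMod n, ZMod.stdAddChar ((e : ZMod n) * τ * c) *
        ZMod.stdAddChar (τ * (-(M : ZMod n))) =
          ZMod.stdAddChar (τ * ((e : ZMod n) * c - (M : ZMod n))) := by
      intro τ
      rw [← AddChar.map_add_eq_mul]
      congr 1
      ring
    simp only [e1, DSC.sum_char, sub_eq_zero]
  have hne : ∀ (i : ℕ) (ρ : ℕ), (e : ZMod n) * ((ρ : ZMod n) ^ 2 *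
      (Nf x (chain x (i + 1)) : ZMod n)) ≠ ((M : ℤ) : ZMod n) := by
    intro i ρ h
    have h1 : ((e * ((ρ : ℤ) ^ 2 * Nf x (chain x (i + 1))) : ℤ) : ZMod n) =
        ((M : ℤ) : ZMod n) := by
      rw [← h]; push_cast; ring
    rw [ZMod.intCast_eq_intCast_iff_dvd_sub] at h1
    have h2 : (2 : ℤ) ∣ M - e * ((ρ : ℤ) ^ 2 * Nf x (chain x (i + 1))) :=
      dvd_trans (by exact_mod_cast hn.two_dvd) h1
    have h3 : Even (Nf x (chain x (i + 1))) := (hc x).2.2.2.1 hx (i + 1)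
    have h5 : Even (M - e * ((ρ : ℤ) ^ 2 * Nf x (chain x (i + 1)))) := even_iff_two_dvd.2 h2
    have h6 : Odd (M - e * ((ρ : ℤ) ^ 2 * Nf x (chain x (i + 1)))) :=
      hM.sub_even ((h3.mul_left _).mul_left _)
    exact (Int.not_even_iff_odd.2 h6) h5
  have hA : ∀ τ : ZMod n, Sx n x (e * τ) * ZMod.stdAddChar (τ * (-(M : ZMod n))) =
      (∑ i ∈ Finset.range x.length, ∑ ρ ∈ Finset.Ico 1 n,
        (1 / 2 * ((x.getD i 0 : ℤ) : ℂ) * ((1 / Real.sin (π * ρ / n) ^ 2 : ℝ) : ℂ)) *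
        (ZMod.stdAddChar ((e : ZMod n) * τ *
          ((ρ : ZMod n) ^ 2 * (Nf x (chain x (i + 1)) : ZMod n))) *
          ZMod.stdAddChar (τ * (-(M : ZMod n))))) +
      ∑ j ∈ Finset.range (x.length + 1), ∑ R : ZMod n × ZMod n,
        (1 / 4 * (-1 : ℂ) ^ j * (ct n (detm n R (chain x j)) * ct n (detm n R (chain x (j + 1))))) *
        (ZMod.stdAddChar ((e : ZMod n) * τ * Nm n x R) *
          ZMod.stdAddChar (τ * (-(M : ZMod n)))) := by
    intro τ
    unfold Sx
    rw [add_mul]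
    congr 1
    · rw [mul_assoc, Finset.sum_mul, Finset.mul_sum]
      refine Finset.sum_congr rfl fun i _ => ?_
      rw [mul_assoc, Finset.sum_mul, Finset.mul_sum, Finset.mul_sum]
      refine Finset.sum_congr rfl fun ρ _ => ?_
      rw [mul_assoc ((e : ZMod n) * τ)]
      ring
    · rw [mul_assoc, Finset.sum_mul, Finset.mul_sum]
      refine Finset.sum_congr rfl fun i _ => ?_
      rw [mul_assoc, Finset.sum_mul, Finset.mul_sum, Finset.mul_sum]
      refine Finset.sum_congr rfl fun ρ _ => ?_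
      ring
  simp only [hA]
  rw [Finset.sum_add_distrib]
  have hB : ∑ τ : ZMod n, ∑ i ∈ Finset.range x.length, ∑ ρ ∈ Finset.Ico 1 n,
        (1 / 2 * ((x.getD i 0 : ℤ) : ℂ) * ((1 / Real.sin (π * ρ / n) ^ 2 : ℝ) : ℂ)) *
        (ZMod.stdAddChar ((e : ZMod n) * τ *
          ((ρ : ZMod n) ^ 2 * (Nf x (chain x (i + 1)) : ZMod n))) *
          ZMod.stdAddChar (τ * (-(M : ZMod n)))) = 0 := by
    rw [Finset.sum_comm]
    refine Finset.sum_eq_zero fun i _ => ?_
    rw [Finset.sum_comm]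
    refine Finset.sum_eq_zero fun ρ _ => ?_
    rw [← Finset.mul_sum, key, if_neg (hne i ρ), mul_zero]
  have hC : ∑ τ : ZMod n, ∑ j ∈ Finset.range (x.length + 1), ∑ R : ZMod n × ZMod n,
        (1 / 4 * (-1 : ℂ) ^ j * (ct n (detm n R (chain x j)) * ct n (detm n R (chain x (j + 1))))) *
        (ZMod.stdAddChar ((e : ZMod n) * τ * Nm n x R) *
          ZMod.stdAddChar (τ * (-(M : ZMod n)))) = (n : ℂ) / 4 * Ze n e x (M : ℤ) := by
    rw [Finset.sum_comm]
    unfold Ze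
    rw [Finset.mul_sum]
    refine Finset.sum_congr rfl fun j _ => ?_
    rw [Finset.sum_comm, Finset.mul_sum, Finset.mul_sum]
    refine Finset.sum_congr rfl fun R _ => ?_
    rw [← Finset.mul_sum, key]
    split_ifs <;> ring
  rw [hB, hC, zero_add]

end DSCM

open Pool.Agent.TB in
theorem dscm (hc : CHN_Stmt) : DSCM_Stmt := by
  intro L hx H s hs M hM
  have hn : Even (2 ^ s) := by
    rw [even_iff_two_dvd]
    exact dvd_pow_self 2 (by omega)
  have hd := DSCM.delta hc L hx H s hs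
  have hz : (-(M : ZMod (2 ^ s))) ≠ 0 := by
    intro h
    have h3 : ((M : ℤ) : ZMod (2 ^ s)) = 0 := by
      rw [← neg_eq_zero]; exact h
    rw [ZMod.intCast_zmod_eq_zero_iff_dvd] at h3
    have h4 : (2 : ℤ) ∣ M := dvd_trans (by exact_mod_cast hn.two_dvd) h3
    exact (Int.not_even_iff_odd.2 hM) (even_iff_two_dvd.2 h4)
  have h3 : ∑ τ : ZMod (2 ^ s),
      (L.map fun t => t.1 * Sx (2 ^ s) t.2.2 ((t.2.1 : ZMod (2 ^ s)) * τ)).sum *
      ZMod.stdAddChar (τ * (-(M : ZMod (2 ^ s)))) = 0 := by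
    simp only [hd]
    rw [← Finset.mul_sum, DSC.sum_char, if_neg hz, mul_zero]
  simp only [← DSCM.sum_mul_r] at h3
  rw [DSCM.sum_comm_list] at h3
  have h5 : ∀ t ∈ L, ∑ τ : ZMod (2 ^ s), t.1 * Sx (2 ^ s) t.2.2 ((t.2.1 : ZMod (2 ^ s)) * τ) *
      ZMod.stdAddChar (τ * (-(M : ZMod (2 ^ s)))) =
      (((2 ^ s : ℕ) : ℂ) / 4) * (t.1 * Ze (2 ^ s) t.2.1 t.2.2 (M : ℤ)) := by
    intro t ht
    have h6 := DSCM.fourier (2 ^ s) hn t.2.2 (hx t ht) t.2.1 hc M hM
    have h7 : ∀ τ : ZMod (2 ^ s), t.1 * Sx (2 ^ s) t.2.2 ((t.2.1 : ZMod (2 ^ s)) * τ) *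
        ZMod.stdAddChar (τ * (-(M : ZMod (2 ^ s)))) =
        t.1 * (Sx (2 ^ s) t.2.2 ((t.2.1 : ZMod (2 ^ s)) * τ) *
        ZMod.stdAddChar (τ * (-(M : ZMod (2 ^ s))))) := fun τ => mul_assoc _ _ _
    simp only [h7]
    rw [← Finset.mul_sum, h6]
    ring
  rw [DSCM.map_congr_sum L _ _ h5, DSCM.sum_mul_l] at h3
  have h4 : (((2 ^ s : ℕ) : ℂ) / 4) ≠ 0 := by
    push_cast
    exact div_ne_zero (pow_ne_zero _ two_ne_zero) (by norm_num)
  exact (mul_eq_zero.1 h3).resolve_left h4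

end Pool.Agent.TS
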