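import Pool.Agent.TS.Stmts
import Pool.Agent.TB.Fin2

/-!
Assembly: finite type invariants separate the connected sums of the knots `K_x`.
-/

open Filter Topology
open scoped BigOperators Real

namespace Pool.Agent.TS

open Pool.Agent.LibH11.Sliced Pool.Agent.TB Pool.Agent.TwoBr

namespace FINS

/-! ### Topology of the sums -/

theorem cnt_kdiag (hklk : KLK_Stmt) (x : List ℤ) : cnt 1 (kdiag x) = some 1 := by
  obtain ⟨lab, c, h⟩ := hklk x
  exact run_cnt _ _ _ h

theorem cnt_sumd (hklk : KLK_Stmt) : ∀ xs : List (List ℤ), cnt 1 (sumd xs) = some 1 := by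
  intro xs
  induction xs with
  | nil => rfl
  | cons x xs ih =>
    show cnt 1 (kdiag x ++ sumd xs) = some 1
    rw [cnt_append, cnt_kdiag hklk]
    exact ih

theorem sumd_cons (x : List ℤ) (xs : List (List ℤ)) : sumd (x :: xs) = kdiag x ++ sumd xs := rfl

theorem sumd_append (xs ys : List (List ℤ)) : sumd (xs ++ ys) = sumd xs ++ sumd ys := by
  simp [sumd]

/-- Summandwise equivalence. -/
theorem sumd_congr (hklk : KLK_Stmt) {xs zs : List (List ℤ)}
    (h : List.Forall₂ (fun x z => EqD 1 (kdiag x) (kdiag z)) xs zs) :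
    EqD 1 (sumd xs) (sumd zs) := by
  induction h with
  | nil => exact EqD.refl _
  | @cons x z xs zs h1 h2 ih =>
    rw [sumd_cons, sumd_cons]
    have h3 : EqD 1 (kdiag x ++ sumd xs) (kdiag x ++ sumd zs) :=
      ih.left _ (cnt_kdiag hklk x)
    have h4 : EqD 1 (kdiag x ++ sumd zs) (kdiag z ++ sumd zs) := h1.right _ (by
      rw [cnt_append, cnt_kdiag hklk]
      simp [cnt_sumd hklk])
    exact h3.trans h4

/-- The order of the summands does not matter. -/
theorem sumd_perm (hklk : KLK_Stmt) (hcom : COM_Stmt) {xs ys : List (List ℤ)}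
    (h : xs.Perm ys) : EqD 1 (sumd xs) (sumd ys) := by
  induction h with
  | nil => exact EqD.refl _
  | cons x _ ih =>
    rw [sumd_cons, sumd_cons]
    exact ih.left _ (cnt_kdiag hklk x)
  | swap x y l =>
    rw [sumd_cons, sumd_cons, sumd_cons, sumd_cons, ← List.append_assoc, ← List.append_assoc]
    have h1 := hcom x (kdiag y) (cnt_kdiag hklk y)
    refine h1.right _ ?_
    rw [cnt_append, cnt_append, cnt_kdiag hklk]
    simp [cnt_kdiag hklk, cnt_sumd hklk]
  | trans _ _ ih1 ih2 => exact ih1.trans ih2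

theorem isLongKnot_sumd (hklk : KLK_Stmt) (hcat : CAT_Stmt) :
    ∀ xs : List (List ℤ), IsLongKnot (sumd xs) := by
  intro xs
  induction xs with
  | nil => exact ⟨fun _ => 0, 1, rfl⟩
  | cons x xs ih => exact hcat _ _ (hklk x) ih

theorem eqd_kdiag_nil : EqD 1 [] (kdiag []) :=
  EqD.symm (EqD.move (Move.zagzig 0) (by decide) (by decide))

theorem sumd_pad (hklk : KLK_Stmt) (xs : List (List ℤ)) (n : ℕ) :
    EqD 1 (sumd xs) (sumd (xs ++ List.replicate n [])) := by
  induction n with
  | zero => simpa using EqD.refl _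
  | succ n ih =>
    rw [List.replicate_succ', ← List.append_assoc, sumd_append]
    refine ih.trans ?_
    have h1 : EqD 1 (sumd (xs ++ List.replicate n []) ++ [])
        (sumd (xs ++ List.replicate n []) ++ kdiag []) :=
      eqd_kdiag_nil.left _ (cnt_sumd hklk _)
    rw [List.append_nil] at h1
    have h2 : sumd [[]] = kdiag [] := by simp [sumd]
    rw [h2]
    exact h1

/-! ### Values -/

theorem J_sumd (hklk : KLK_Stmt) (hmul : MUL_Stmt) {A : Type} [CommRing A] (Q : QP A) (r : ℕ)
    (xs : List (List ℤ)) :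
    (tdata Q r).J (s0 r) (sumd xs) = (xs.map fun x => (tdata Q r).J (s0 r) (kdiag x)).prod := by
  induction xs with
  | nil => simp [sumd, TData.J, TData.st]
  | cons x xs ih =>
    rw [sumd_cons, hmul A Q r _ _ (cnt_kdiag hklk x) (cnt_sumd hklk xs), ih, List.map_cons,
      List.prod_cons]

theorem Jval_nil {A : Type} [CommRing A] (Q : QP A) (r : ℕ) : Jval Q r [] = 1 := by
  simp [Jval, Uval, wop]

theorem jprod (hklk : KLK_Stmt) (hftm : FTM_Stmt) (htdg : TDG_Stmt) (hval : VAL_Stmt)
    (hhz : HZ_Stmt) (hgps : GPS_Stmt) (hmul : MUL_Stmt) {xs ys : List (List ℤ)}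
    (hx : IsLongKnot (sumd xs)) (hy : IsLongKnot (sumd ys))
    (hxe : ∀ x ∈ xs, Even x.length) (hye : ∀ y ∈ ys, Even y.length)
    (h : ∀ v : Knot → ℂ, IsFiniteType v → v (ofDiag (sumd xs) hx) = v (ofDiag (sumd ys) hy))
    (r : ℕ) (hr : Even r) :
    (xs.map fun x => Jval QPS r x.reverse).prod = (ys.map fun y => Jval QPS r y.reverse).prod := by
  have h1 := hftm (SL r) (tdata QPS r) (s0 r) (htdg _ QPS r hr (hgps r).1 (hgps r).2)
    (hhz r hr) (sumd xs) (sumd ys) hx hy h
  rw [J_sumd hklk hmul, J_sumd hklk hmul] at h1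
  have h2 : ∀ zs : List (List ℤ), (∀ z ∈ zs, Even z.length) →
      (zs.map fun x => (tdata QPS r).J (s0 r) (kdiag x)) =
        zs.map fun x => Jval QPS r x.reverse := by
    intro zs hz
    refine List.map_congr_left fun z hz' => ?_
    exact hval _ QPS r hr (hgps r).1 (hgps r).2 z (hz z hz')
  rw [h2 xs hxe, h2 ys hye] at h1
  exact h1

end FINS

open FINS

/-- Equality of all finite type invariants for lists of words of the same length. -/
theorem FINS.match_words (hdscm : DSCM_Stmt) (htelm : TELM_Stmt) (hcntm : CNTM_Stmt)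
    (hlgm : LGM_Stmt) (hchn : CHN_Stmt) {xs ys : List (List ℤ)} (hlen : xs.length = ys.length)
    (hx : ∀ x ∈ xs, Even x.length ∧ ∀ a ∈ x, a ≠ 0) (hy : ∀ y ∈ ys, Even y.length ∧ ∀ a ∈ y, a ≠ 0)
    (h : ∀ r : ℕ, 0 < r → Even r → ∀ ι : ℤ, IsCoprime ι (4 * r : ℤ) →
      (xs.map (Jval (QD (sz (2 * r) ι)) r)).prod = (ys.map (Jval (QD (sz (2 * r) ι)) r)).prod) :
    ∃ zs, ys.Perm zs ∧ List.Forall₂ (fun x z => z = x ∨ z = x.reverse) xs zs := by
  -- the common multiple
  obtain ⟨D, hDdef⟩ : ∃ D : ℤ, D = (xs.map fun x => (lastv x).2).prod *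
      (ys.map fun x => (lastv x).2).prod := ⟨_, rfl⟩
  have hdvx : ∀ x ∈ xs, (lastv x).2 ∣ D := fun x hx' => by
    rw [hDdef]
    exact Dvd.dvd.mul_right (List.dvd_prod (List.mem_map.2 ⟨x, hx', rfl⟩)) _
  have hdvy : ∀ y ∈ ys, (lastv y).2 ∣ D := fun y hy' => by
    rw [hDdef]
    exact Dvd.dvd.mul_left (List.dvd_prod (List.mem_map.2 ⟨y, hy', rfl⟩)) _
  have hoddp : ∀ zs : List (List ℤ), (∀ z ∈ zs, Even z.length) →
      Odd (zs.map fun x => (lastv x).2).prod := by
    intro zs
    induction zs with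
    | nil => intro _; simp
    | cons z zs ih =>
      intro hz
      rw [List.map_cons, List.prod_cons]
      exact (FIN2.even_A hchn (hz z (by simp))).2.mul (ih fun w hw => hz w (by simp [hw]))
  have hDodd : Odd D := by
    rw [hDdef]
    exact (hoddp xs fun x hx' => (hx x hx').1).mul (hoddp ys fun y hy' => (hy y hy').1)
  have hD0 : D ≠ 0 := by
    rintro rfl
    simp at hDodd
  have hlg := hlgm xs ys D hlen (fun x hx' => ⟨(hx x hx').1, hdvx x hx'⟩)
    (fun y hy' => ⟨(hy y hy').1, hdvy y hy'⟩) hDodd h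
  -- descent
  let L : List (ℂ × ℤ × List ℤ) := (xs.map fun x => ((1 : ℂ), D / (lastv x).2, x)) ++
    ys.map fun y => ((-1 : ℂ), D / (lastv y).2, y)
  have hneg : ∀ (zs : List (List ℤ)) (f : List ℤ → ℂ),
      (zs.map fun z => -1 * f z).sum = -(zs.map f).sum := by
    intro zs f
    induction zs with
    | nil => simp
    | cons z zs ih => simp only [List.map_cons, List.sum_cons, ih]; ring
  have hLsum : ∀ f : ℤ → List ℤ → ℂ, (L.map fun t => t.1 * f t.2.1 t.2.2).sum =
      (xs.map fun x => f (D / (lastv x).2) x).sum - (ys.map fun y => f (D / (lastv y).2) y).sum := by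
    intro f
    simp only [L, List.map_append, List.map_map, List.sum_append, Function.comp_def, one_mul]
    rw [hneg ys (fun y => f (D / (lastv y).2) y)]
    ring
  have hd := hdscm L (by
    intro t ht
    simp only [L, List.mem_append, List.mem_map] at ht
    rcases ht with ⟨x, hx', rfl⟩ | ⟨y, hy', rfl⟩
    · exact (hx x hx').1
    · exact (hy y hy').1) (by
    intro s hs τ hτ
    have h1 := hLsum fun e x => Sx (2 ^ s) x ((e : ZMod (2 ^ s)) * τ)
    have h2 := hLsum fun _ x => ((x.sum : ℤ) : ℂ)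
    rw [h1, h2]
    exact hlg s hs τ hτ)
  -- the limit
  have hcount : ∀ M : ℤ, Odd M → (xs.map fun x => rc (D / (lastv x).2) x M).sum =
      (ys.map fun y => rc (D / (lastv y).2) y M).sum := by
    intro M hM
    have hM0 : M ≠ 0 := by
      rintro rfl
      simp at hM
    have hdiv : ∀ z : List ℤ, (lastv z).2 ∣ D → D / (lastv z).2 * (lastv z).2 = D :=
      fun z hz => Int.ediv_mul_cancel hz
    have hlim : ∀ zs : List (List ℤ), (∀ z ∈ zs, Even z.length ∧ (lastv z).2 ∣ D) →
        Tendsto (fun s : ℕ => ((π : ℂ) / 2 ^ s) ^ 2 *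
          (zs.map fun z => Ze (2 ^ s) (D / (lastv z).2) z (M : ℤ)).sum) atTop
          (𝓝 (-(D : ℂ) / M * ((zs.map fun z => rc (D / (lastv z).2) z M).sum : ℕ))) := by
      intro zs
      induction zs with
      | nil => intro _; simp
      | cons z zs ih =>
        intro hz
        have h1 := hz z (by simp)
        have he : Odd (D / (lastv z).2) := by
          have h2 := hdiv z h1.2
          rw [← h2] at hDodd
          exact (Int.odd_mul.1 hDodd).1
        have h3 := (htelm z h1.1 (D / (lastv z).2) M he hM).2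
        have h4 := ih fun w hw => hz w (by simp [hw])
        have h5 := h3.add h4
        rw [hdiv z h1.2] at h5
        simp only [List.map_cons, List.sum_cons]
        convert h5 using 2
        · ring
        · push_cast; ring
    have hlx := hlim xs fun x hx' => ⟨(hx x hx').1, hdvx x hx'⟩
    have hly := hlim ys fun y hy' => ⟨(hy y hy').1, hdvy y hy'⟩
    have heq : ∀ᶠ s : ℕ in atTop, ((π : ℂ) / 2 ^ s) ^ 2 *
          (xs.map fun z => Ze (2 ^ s) (D / (lastv z).2) z (M : ℤ)).sum =
        ((π : ℂ) / 2 ^ s) ^ 2 * (ys.map fun z => Ze (2 ^ s) (D / (lastv z).2) z (M : ℤ)).sum := by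
      filter_upwards [eventually_ge_atTop 1] with s hs
      have h1 := hd s hs M hM
      have h2 := hLsum fun e x => Ze (2 ^ s) e x (M : ℤ)
      rw [h2, sub_eq_zero] at h1
      rw [h1]
    have h1 := tendsto_nhds_unique (hlx.congr' heq) hly
    have hne : -(D : ℂ) / M ≠ 0 :=
      div_ne_zero (neg_ne_zero.mpr (by exact_mod_cast hD0)) (by exact_mod_cast hM0)
    exact_mod_cast mul_left_cancel₀ hne h1
  exact hcntm D hDodd xs ys hlen (fun x hx' => ⟨(hx x hx').1, (hx x hx').2, hdvx x hx'⟩)
    (fun y hy' => ⟨(hy y hy').1, (hy y hy').2, hdvy y hy'⟩) hcount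

theorem fins (hklk : KLK_Stmt) (hftm : FTM_Stmt) (htdg : TDG_Stmt) (hval : VAL_Stmt)
    (hhz : HZ_Stmt) (hgps : GPS_Stmt) (hgrt : GRT_Stmt) (hchn : CHN_Stmt) (hrv : RV_Stmt)
    (hcom : COM_Stmt) (hmul : MUL_Stmt) (hotm : OTM_Stmt) (hlgm : LGM_Stmt)
    (hdscm : DSCM_Stmt) (htelm : TELM_Stmt) (hcntm : CNTM_Stmt) : FINS_Stmt := by
  intro xs ys hx hy hxa hya h
  -- padding
  let xs' := xs ++ List.replicate ys.length ([] : List ℤ)
  let ys' := ys ++ List.replicate xs.length ([] : List ℤ)
  have hxs' : ∀ x ∈ xs', Even x.length ∧ ∀ a ∈ x, a ≠ 0 := by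
    intro x hx'
    simp only [xs', List.mem_append, List.mem_replicate] at hx'
    rcases hx' with h1 | ⟨-, rfl⟩
    · exact hxa x h1
    · simp
  have hys' : ∀ y ∈ ys', Even y.length ∧ ∀ a ∈ y, a ≠ 0 := by
    intro x hx'
    simp only [ys', List.mem_append, List.mem_replicate] at hx'
    rcases hx' with h1 | ⟨-, rfl⟩
    · exact hya x h1
    · simp
  have hlen : (xs'.map List.reverse).length = (ys'.map List.reverse).length := by
    simp only [xs', ys', List.length_map, List.length_append, List.length_replicate]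
    omega
  have hrevad : ∀ zs : List (List ℤ), (∀ z ∈ zs, Even z.length ∧ ∀ a ∈ z, a ≠ 0) →
      ∀ z ∈ zs.map List.reverse, Even z.length ∧ ∀ a ∈ z, a ≠ 0 := by
    intro zs hz z hz'
    obtain ⟨w, hw, rfl⟩ := List.mem_map.1 hz'
    refine ⟨by rw [List.length_reverse]; exact (hz w hw).1, fun a ha => ?_⟩
    exact (hz w hw).2 a (List.mem_reverse.1 ha)
  -- products
  have h1 : ∀ r : ℕ, Even r → ((xs'.map List.reverse).map (Jval QPS r)).prod =
      ((ys'.map List.reverse).map (Jval QPS r)).prod := by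
    intro r hr
    have h2 := jprod hklk hftm htdg hval hhz hgps hmul hx hy (fun x hx' => (hxa x hx').1)
      (fun y hy' => (hya y hy').1) h r hr
    simp only [xs', ys', List.map_append, List.map_replicate, List.prod_append, List.map_map,
      Function.comp_def, List.reverse_nil, List.prod_replicate, Jval_nil, one_pow, mul_one]
    exact h2
  have h2 := FINS.match_words hdscm htelm hcntm hlgm hchn hlen (hrevad xs' hxs')
    (hrevad ys' hys') (by
    intro r hr0 hr ι hι
    exact hotm r (sz (2 * r) ι) (hgrt r ι hr0 hι).1 _ _ (h1 r hr))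
  obtain ⟨zs, hperm, hrel⟩ := h2
  -- the knots
  have hrevE : ∀ zs : List (List ℤ), (∀ z ∈ zs, Even z.length) →
      EqD 1 (sumd zs) (sumd (zs.map List.reverse)) := by
    intro zs hz
    refine sumd_congr hklk ?_
    induction zs with
    | nil => exact List.Forall₂.nil
    | cons z zs ih =>
      exact List.Forall₂.cons (hrv z (hz z (by simp))) (ih fun w hw => hz w (by simp [hw]))
  have e1 := sumd_pad hklk xs ys.length
  have e2 := hrevE xs' fun x hx' => (hxs' x hx').1
  have hgen : ∀ as bs : List (List ℤ), List.Forall₂ (fun x z => z = x ∨ z = x.reverse) as bs →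
      (∀ x ∈ as, Even x.length) → List.Forall₂ (fun x z => EqD 1 (kdiag x) (kdiag z)) as bs := by
    intro as bs hab
    induction hab with
    | nil => intro _; exact List.Forall₂.nil
    | @cons x z as bs h3 h4 ih =>
      intro hev
      refine List.Forall₂.cons ?_ (ih fun w hw => hev w (by simp [hw]))
      rcases h3 with rfl | rfl
      · exact EqD.refl _
      · exact hrv x (hev x (by simp))
  have e3 : EqD 1 (sumd (xs'.map List.reverse)) (sumd zs) :=
    sumd_congr hklk (hgen _ _ hrel fun x hx' => (hrevad xs' hxs' x hx').1)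
  have e4 := sumd_perm hklk hcom hperm
  have e5 := hrevE ys' fun y hy' => (hys' y hy').1
  have e6 := sumd_pad hklk ys xs.length
  have e : EqD 1 (sumd xs) (sumd ys) :=
    ((e1.trans e2).trans e3).trans (((e6.trans e5).trans e4).symm)
  exact e.knot hx

/-- The class of connected sums of knots with at most one minimum. -/
theorem separation_sums (hklk : KLK_Stmt) (hnf : NF_Stmt) (hfins : FINS_Stmt)
    {K K' : Knot} {ws ws' : List Diag} (h : IsLongKnot ws.flatten) (h' : IsLongKnot ws'.flatten)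
    (hws : ∀ w ∈ ws, IsLongKnot w ∧ minima w ≤ 1) (hws' : ∀ w ∈ ws', IsLongKnot w ∧ minima w ≤ 1)
    (hK : K = ofDiag ws.flatten h) (hK' : K' = ofDiag ws'.flatten h')
    (hv : ∀ v : Knot → ℚ, IsFiniteType v → v K = v K') : K = K' := by
  have key : ∀ ws : List Diag, (∀ w ∈ ws, IsLongKnot w ∧ minima w ≤ 1) →
      ∃ xs : List (List ℤ), (∀ x ∈ xs, Even x.length ∧ ∀ a ∈ x, a ≠ 0) ∧
        EqD 1 ws.flatten (sumd xs) ∧ cnt 1 ws.flatten = some 1 := by
    intro ws
    induction ws with
    | nil => intro _; exact ⟨[], by simp, EqD.refl _, rfl⟩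
    | cons w ws ih =>
      intro hw
      obtain ⟨xs, h1, h2, h3⟩ := ih fun w' hw' => hw w' (by simp [hw'])
      obtain ⟨h4, h5⟩ := hw w (by simp)
      obtain ⟨u, h6⟩ := one_min h4 h5
      obtain ⟨x, h7, h8, h9⟩ := hnf u (h6.isLongKnot h4)
      have h10 : cnt 1 w = some 1 := by
        obtain ⟨lab, c, hr⟩ := h4
        exact run_cnt _ _ _ hr
      refine ⟨x :: xs, ?_, ?_, ?_⟩
      · intro y hy
        rcases List.mem_cons.1 hy with rfl | hy
        · exact ⟨h7, h8⟩
        · exact h1 y hy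
      · rw [List.flatten_cons, sumd_cons]
        have h11 : EqD 1 (w ++ ws.flatten) (w ++ sumd xs) := h2.left _ h10
        refine h11.trans ((h6.trans h9).right _ ?_)
        rw [cnt_append, h10]
        simp [cnt_sumd hklk]
      · rw [List.flatten_cons, cnt_append, h10]
        exact h3
  obtain ⟨xs, h1, h2, -⟩ := key ws hws
  obtain ⟨ys, h3, h4, -⟩ := key ws' hws'
  subst hK hK'
  rw [h2.knot h, h4.knot h']
  refine hfins xs ys _ _ h1 h3 fun v hv' => ?_
  have h5 := complex_of_rat hv v hv'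
  rwa [h2.knot h, h4.knot h'] at h5

end Pool.Agent.TS
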