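import Pool.Agent.TS.Stmts

/-!
LGM: sums of logarithmic derivatives (see PAPER.md, section 2).
-/

open scoped BigOperators Real

namespace Pool.Agent.TS

open Pool.Agent.LibH11.Sliced Pool.Agent.TB Pool.Agent.TwoBr

namespace LGM

/-- a product of dual numbers `a (1 + η M)` -/
theorem prod_dual (f : List ℤ → DualNumber ℂ) (a M : List ℤ → ℂ) :
    ∀ xs : List (List ℤ),
      (∀ x ∈ xs, f x = TrivSqZeroExt.inl (a x) + TrivSqZeroExt.inr (a x * M x)) →
      (xs.map f).prod = TrivSqZeroExt.inl (xs.map a).prod +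
        TrivSqZeroExt.inr ((xs.map a).prod * (xs.map M).sum)
  | [], _ => by simp
  | x :: xs, h => by
    have ih := prod_dual f a M xs fun y hy => h y (List.mem_cons_of_mem _ hy)
    rw [List.map_cons, List.prod_cons, ih, h x List.mem_cons_self]
    ext
    · simp
    · simp
      ring

end LGM

open LGM in
theorem lgm (htor : TOR_Stmt) (hjnz : JNZ_Stmt) (hlam : LAM_Stmt) : LGM_Stmt := by
  intro xs ys D hlen hxs hys hD h s hs τ hτ
  obtain ⟨t, rfl⟩ : ∃ t, s = t + 2 := ⟨s - 2, by omega⟩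
  have hn : 2 ^ (t + 2) = 2 * 2 ^ (t + 1) := by ring
  have hDc : IsCoprime D (2 ^ (t + 2) : ℤ) := by
    apply IsCoprime.pow_right
    obtain ⟨k, hk⟩ := hD
    exact ⟨1, -k, by rw [hk]; ring⟩
  have hDu : IsUnit ((D : ℤ) : ZMod (2 ^ (t + 2))) := by
    rw [ZMod.coe_int_isUnit_iff_isCoprime]
    push_cast
    exact hDc.symm
  obtain ⟨u, hu⟩ := hDu.mul hτ
  set ι : ℤ := (((u⁻¹ : (ZMod (2 ^ (t + 2)))ˣ) : ZMod (2 ^ (t + 2))).val : ℤ) with hι
  have hιz : ((ι : ℤ) : ZMod (2 ^ (t + 2))) = ((u⁻¹ : (ZMod (2 ^ (t + 2)))ˣ) : ZMod (2 ^ (t + 2))) := by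
    rw [hι]; simp
  have hιc : IsCoprime ι (2 * (2 ^ (t + 2) : ℕ) : ℤ) := by
    have h1 : IsUnit ((ι : ℤ) : ZMod (2 ^ (t + 2))) := by rw [hιz]; exact Units.isUnit _
    rw [ZMod.coe_int_isUnit_iff_isCoprime] at h1
    push_cast at h1 ⊢
    have h2 : IsCoprime ι (2 : ℤ) := by
      refine IsCoprime.of_isCoprime_of_dvd_right h1.symm ?_
      exact dvd_pow_self 2 (by omega)
    exact IsCoprime.mul_right h2 h1.symm
  have hev : Even (2 ^ (t + 2)) := ⟨2 ^ (t + 1), by ring⟩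
  have h1n : 1 < 2 ^ (t + 2) := Nat.one_lt_two_pow (by omega)
  have hιD : ((D : ℤ) : ZMod (2 ^ (t + 2))) * τ * ((ι : ℤ) : ZMod (2 ^ (t + 2))) = 1 := by
    rw [hιz, ← hu]; simp
  have hr : Even (2 ^ (t + 1)) := ⟨2 ^ t, by ring⟩
  have hrp : 0 < 2 ^ (t + 1) := by positivity
  have hc4 : IsCoprime ι (4 * (2 ^ (t + 1) : ℕ) : ℤ) := by
    have : (4 * (2 ^ (t + 1) : ℕ) : ℤ) = 2 * (2 ^ (t + 2) : ℕ) := by push_cast; ring
    rw [this]; exact hιc
  have hprod := h (2 ^ (t + 1)) hrp hr ι hc4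
  rw [← hn] at hprod
  -- the values
  set a : List ℤ → ℂ := fun x => (vec (2 ^ (t + 2)) ι false x).1 0 with ha
  set M : List ℤ → ℂ := fun x => (-(((2 ^ (t + 2) : ℕ) : ℂ) ^ 2 - 1) / 6 * (x.sum : ℤ) +
    Sx (2 ^ (t + 2)) x (((D / (lastv x).2 : ℤ) : ZMod (2 ^ (t + 2))) * τ)) + Th (2 ^ (t + 2)) ι 1 0 with hM
  have key : ∀ x : List ℤ, Even x.length → (lastv x).2 ∣ D →
      Jval (QD (sz (2 ^ (t + 2)) ι)) (2 ^ (t + 1)) x =
        TrivSqZeroExt.inl (a x) + TrivSqZeroExt.inr (a x * M x) := by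
    intro x hx hd
    rw [htor (2 ^ (t + 2)) (2 ^ (t + 1)) ι hn hr hιc x hx]
    have hκ : (((D / (lastv x).2 : ℤ) : ZMod (2 ^ (t + 2))) * τ) * ((ι : ℤ) : ZMod (2 ^ (t + 2))) *
        (((lastv x).2 : ℤ) : ZMod (2 ^ (t + 2))) = 1 := by
      have h2 : (((D / (lastv x).2 : ℤ)) : ZMod (2 ^ (t + 2))) * (((lastv x).2 : ℤ) : ZMod (2 ^ (t + 2))) =
          ((D : ℤ) : ZMod (2 ^ (t + 2))) := by
        rw [← Int.cast_mul, Int.ediv_mul_cancel hd]
      calc _ = ((((D / (lastv x).2 : ℤ)) : ZMod (2 ^ (t + 2))) * (((lastv x).2 : ℤ) : ZMod (2 ^ (t + 2)))) * τ *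
          ((ι : ℤ) : ZMod (2 ^ (t + 2))) := by ring
        _ = 1 := by rw [h2, hιD]
    rw [hlam (2 ^ (t + 2)) ι h1n hιc hev x hx _ hκ]
    ext
    · simp [ha]
    · simp [ha, hM]
      ring
  have hne : ∀ x : List ℤ, Even x.length → (lastv x).2 ∣ D → a x ≠ 0 := by
    intro x hx hd h0
    have hcop : IsCoprime (lastv x).2 ((2 ^ (t + 2) : ℕ) : ℤ) := by
      push_cast
      exact IsCoprime.of_isCoprime_of_dvd_left hDc hd
    have := (hjnz (2 ^ (t + 2)) ι hιc hev x hx).1 hcop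
    simp only [ha] at h0
    rw [h0] at this
    simp at this
  rw [prod_dual _ a M xs fun x hx => key x (hxs x hx).1 (hxs x hx).2,
    prod_dual _ a M ys fun x hx => key x (hys x hx).1 (hys x hx).2] at hprod
  have hf := congrArg TrivSqZeroExt.fst hprod
  have hsn := congrArg TrivSqZeroExt.snd hprod
  simp only [TrivSqZeroExt.fst_add, TrivSqZeroExt.fst_inl, TrivSqZeroExt.fst_inr, add_zero] at hf
  simp only [TrivSqZeroExt.snd_add, TrivSqZeroExt.snd_inl, TrivSqZeroExt.snd_inr, zero_add] at hsn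
  rw [hf] at hsn
  have hpne : (ys.map a).prod ≠ 0 := by
    apply List.prod_ne_zero
    intro h0
    obtain ⟨y, hy, hy0⟩ := List.mem_map.1 h0
    exact hne y (hys y hy).1 (hys y hy).2 hy0
  have hsum := mul_left_cancel₀ hpne hsn
  have hexp : ∀ zs : List (List ℤ), (zs.map M).sum =
      -(((2 ^ (t + 2) : ℕ) : ℂ) ^ 2 - 1) / 6 * (zs.map fun x => ((x.sum : ℤ) : ℂ)).sum +
        (zs.map fun x => Sx (2 ^ (t + 2)) x (((D / (lastv x).2 : ℤ) : ZMod (2 ^ (t + 2))) * τ)).sum +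
        (zs.length : ℂ) * Th (2 ^ (t + 2)) ι 1 0 := by
    intro zs
    induction zs with
    | nil => simp
    | cons z zs ih =>
      rw [List.map_cons, List.sum_cons, ih]
      simp only [List.map_cons, List.sum_cons, List.length_cons, hM]
      push_cast
      ring
  rw [hexp xs, hexp ys, hlen] at hsum
  linear_combination hsum

end Pool.Agent.TS
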