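import Pool.Agent.TS.Stmts

/-!
The functor is multiplicative on (1,1)-diagrams.
-/

open scoped BigOperators

namespace Pool.Agent.TS.MUL

open Pool.Agent.LibH11 Pool.Agent.LibH11.Sliced Pool.Agent.TB

/-- prepend a value -/
def cons (a : ℤ) (f : ℕ → ℤ) : ℕ → ℤ
  | 0 => a
  | j + 1 => f j

theorem cons_add (a b : ℤ) (f g : ℕ → ℤ) : cons a f + cons b g = cons (a + b) (f + g) := by
  funext j
  cases j <;> rfl

/-- `0` or `1` -/
def b2 (b : Bool) : ℤ := if b then 1 else 0

/-- the characteristic function of a subset of the modes -/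
def wt : ∀ {r}, Lb r → ℕ → ℤ
  | 0, _ => 0
  | r + 1, x => cons (b2 x.2) (wt (r := r) x.1)

/-- the characteristic function of the set of all modes -/
def ones : ℕ → ℕ → ℤ
  | 0 => 0
  | r + 1 => cons 1 (ones r)

theorem wt_inj : ∀ {r : ℕ} {x y : Lb r}, wt x = wt y → x = y
  | 0, _, _, _ => rfl
  | r + 1, x, y, h => by
    have h0 : b2 x.2 = b2 y.2 := congrFun h 0
    have h1 : wt x.1 = wt y.1 := funext fun j => congrFun h (j + 1)
    have h2 : x.1 = y.1 := wt_inj h1
    have h3 : x.2 = y.2 := by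
      revert h0
      cases x.2 <;> cases y.2 <;> simp [b2]
    exact Prod.ext h2 h3

section

variable {A : Type} [CommRing A] (Q : QP A)

theorem Im_wt : ∀ {r : ℕ} (x y a b : Lb r), Im Q r (x, y) (a, b) ≠ 0 → wt x + wt y = wt a + wt b
  | 0, _, _, _, _, _ => rfl
  | r + 1, x, y, a, b, h => by
    obtain ⟨x, u⟩ := x
    obtain ⟨y, v⟩ := y
    obtain ⟨a, c⟩ := a
    obtain ⟨b, d⟩ := b
    show cons (b2 u) (wt x) + cons (b2 v) (wt y) = cons (b2 c) (wt a) + cons (b2 d) (wt b)
    rw [cons_add, cons_add]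
    have h' : (if u = c ∧ v = d then kinv Q u v * Im Q r (x, y) (a, b) else 0) +
        (if x = a ∧ y = b then bm A u v c d else 0) ≠ 0 := h
    by_cases h1 : (if u = c ∧ v = d then kinv Q u v * Im Q r (x, y) (a, b) else 0) = 0
    · rw [h1, zero_add] at h'
      have h2 : x = a ∧ y = b := by
        by_contra h2
        rw [if_neg h2] at h'
        exact h' rfl
      rw [if_pos h2] at h'
      obtain ⟨rfl, rfl⟩ := h2
      have h3 : b2 u + b2 v = b2 c + b2 d := by
        revert h'
        cases u <;> cases v <;> cases c <;> cases d <;> simp [bm, b2]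
      rw [h3]
    · have h2 : u = c ∧ v = d := by
        by_contra h2
        rw [if_neg h2] at h1
        exact h1 rfl
      rw [if_pos h2] at h1
      obtain ⟨rfl, rfl⟩ := h2
      rw [Im_wt x y a b (right_ne_zero_of_mul h1)]

theorem mul_wt {r : ℕ} {M N : Matrix (Lb r × Lb r) (Lb r × Lb r) A}
    (hM : ∀ x y a b : Lb r, M (x, y) (a, b) ≠ 0 → wt x + wt y = wt a + wt b)
    (hN : ∀ x y a b : Lb r, N (x, y) (a, b) ≠ 0 → wt x + wt y = wt a + wt b)
    (x y a b : Lb r) (h : (M * N) (x, y) (a, b) ≠ 0) : wt x + wt y = wt a + wt b := by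
  rw [Matrix.mul_apply] at h
  obtain ⟨⟨c, d⟩, -, hk⟩ := Finset.exists_ne_zero_of_sum_ne_zero h
  rw [hM x y c d (left_ne_zero_of_mul hk), hN c d a b (right_ne_zero_of_mul hk)]

theorem Rm_wt : ∀ {r : ℕ} (x y a b : Lb r), Rm Q r (x, y) (a, b) ≠ 0 → wt x + wt y = wt a + wt b
  | 0, _, _, _, _, _ => rfl
  | r + 1, x, y, a, b, h => by
    obtain ⟨x, u⟩ := x
    obtain ⟨y, v⟩ := y
    obtain ⟨a, c⟩ := a
    obtain ⟨b, d⟩ := b
    show cons (b2 u) (wt x) + cons (b2 v) (wt y) = cons (b2 c) (wt a) + cons (b2 d) (wt b)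
    rw [cons_add, cons_add]
    have key : b2 u + b2 v = b2 c + b2 d ∧ wt x + wt y = wt a + wt b := by
      cases u <;> cases v <;> cases c <;> cases d
      case false.false.false.false => exact ⟨rfl, Rm_wt x y a b h⟩
      case true.true.true.true => exact ⟨rfl, Rm_wt x y a b h⟩
      case false.true.true.false =>
        exact ⟨rfl, Rm_wt x y a b (right_ne_zero_of_mul h)⟩
      case true.false.false.true =>
        exact ⟨rfl, Rm_wt x y a b (right_ne_zero_of_mul h)⟩
      case false.true.false.true =>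
        exact ⟨rfl, mul_wt Rm_wt (Im_wt Q) x y a b (right_ne_zero_of_mul h)⟩
      all_goals exact absurd rfl h
    rw [key.1, key.2]

theorem Rn_wt : ∀ {r : ℕ} (x y a b : Lb r), Rn Q r (x, y) (a, b) ≠ 0 → wt x + wt y = wt a + wt b
  | 0, _, _, _, _, _ => rfl
  | r + 1, x, y, a, b, h => by
    obtain ⟨x, u⟩ := x
    obtain ⟨y, v⟩ := y
    obtain ⟨a, c⟩ := a
    obtain ⟨b, d⟩ := b
    show cons (b2 u) (wt x) + cons (b2 v) (wt y) = cons (b2 c) (wt a) + cons (b2 d) (wt b)
    rw [cons_add, cons_add]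
    have key : b2 u + b2 v = b2 c + b2 d ∧ wt x + wt y = wt a + wt b := by
      cases u <;> cases v <;> cases c <;> cases d
      case false.false.false.false => exact ⟨rfl, Rn_wt x y a b h⟩
      case true.true.true.true => exact ⟨rfl, Rn_wt x y a b h⟩
      case false.true.true.false =>
        exact ⟨rfl, Rn_wt x y a b (right_ne_zero_of_mul h)⟩
      case true.false.false.true =>
        exact ⟨rfl, Rn_wt x y a b (right_ne_zero_of_mul h)⟩
      case true.false.true.false =>
        exact ⟨rfl, mul_wt Rn_wt (Im_wt Q) x y a b (right_ne_zero_of_mul h)⟩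
      all_goals exact absurd rfl h
    rw [key.1, key.2]

theorem cupv_wt : ∀ {r : ℕ} (x y : Lb r), cupv Q r x y ≠ 0 → wt x + wt y = ones r
  | 0, _, _, _ => rfl
  | r + 1, x, y, h => by
    obtain ⟨x, u⟩ := x
    obtain ⟨y, v⟩ := y
    show cons (b2 u) (wt x) + cons (b2 v) (wt y) = cons 1 (ones r)
    rw [cons_add]
    have key : b2 u + b2 v = 1 ∧ wt x + wt y = ones r := by
      cases u <;> cases v
      case true.false => exact ⟨rfl, cupv_wt x y h⟩
      case false.true => exact ⟨rfl, cupv_wt x y (right_ne_zero_of_mul h)⟩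
      all_goals exact absurd rfl h
    rw [key.1, key.2]

theorem capu_wt : ∀ {r : ℕ} (x y : Lb r), capu Q r x y ≠ 0 → wt x + wt y = ones r
  | 0, _, _, _ => rfl
  | r + 1, x, y, h => by
    obtain ⟨x, u⟩ := x
    obtain ⟨y, v⟩ := y
    show cons (b2 u) (wt x) + cons (b2 v) (wt y) = cons 1 (ones r)
    rw [cons_add]
    have key : b2 u + b2 v = 1 ∧ wt x + wt y = ones r := by
      cases u <;> cases v
      case true.false => exact ⟨rfl, capu_wt x y h⟩
      case false.true => exact ⟨rfl, capu_wt x y (right_ne_zero_of_mul h)⟩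
      all_goals exact absurd rfl h
    rw [key.1, key.2]

/-- the weight of a label -/
def W {r : ℕ} (x : SL r) : (ℕ → ℤ) × ℤ :=
  (wt x.1.1 - (if x.2 then 0 else ones r), if x.2 then 1 else -1)

theorem W_s0 {r : ℕ} {x : SL r} (h : W x = W (s0 r)) : x = s0 r := by
  obtain ⟨⟨x, hx⟩, o⟩ := x
  have h2 : (if o then (1 : ℤ) else -1) = 1 := congrArg Prod.snd h
  have ho : o = true := by
    revert h2
    cases o <;> simp
  subst ho
  have h1 : wt x - 0 = wt (Lb.zero r) - 0 := congrArg Prod.fst h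
  rw [sub_zero, sub_zero] at h1
  have := wt_inj h1
  subst this
  rfl

theorem R_W {r : ℕ} (e : Bool) (x y a b : SL r) (h : (tdata Q r).R e x y a b ≠ 0) :
    W x + W y = W a + W b := by
  obtain ⟨⟨x, hx⟩, o⟩ := x
  obtain ⟨⟨y, hy⟩, p⟩ := y
  obtain ⟨⟨a, ha⟩, q⟩ := a
  obtain ⟨⟨b, hb⟩, t⟩ := b
  have h0 : o = t ∧ p = q := by
    by_contra h0
    exact h (if_neg h0)
  obtain ⟨rfl, rfl⟩ := h0
  have h1 : wt x + wt y = wt a + wt b := by
    cases e with
    | true =>
      have h' : (if o = o ∧ p = p then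
          ((if p = o then Q.fu r * (Q.s ^ r)⁻¹ else (Q.fu r)⁻¹ : Aˣ) : A) *
            Rm Q r (x, y) (a, b) else 0) ≠ 0 := h
      rw [if_pos ⟨rfl, rfl⟩] at h'
      exact Rm_wt Q x y a b (right_ne_zero_of_mul h')
    | false =>
      have h' : (if o = o ∧ p = p then
          ((if p = o then (Q.fu r)⁻¹ * Q.s ^ r else Q.fu r : Aˣ) : A) *
            Rn Q r (x, y) (a, b) else 0) ≠ 0 := h
      rw [if_pos ⟨rfl, rfl⟩] at h'
      exact Rn_wt Q x y a b (right_ne_zero_of_mul h')
  refine Prod.ext ?_ ?_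
  · show (wt x - (if o then 0 else ones r)) + (wt y - (if p then 0 else ones r)) =
      (wt a - (if p then 0 else ones r)) + (wt b - (if o then 0 else ones r))
    rw [sub_add_sub_comm, sub_add_sub_comm, h1, add_comm (if o then (0 : ℕ → ℤ) else ones r)]
  · show (if o then (1 : ℤ) else -1) + (if p then 1 else -1) =
      (if p then 1 else -1) + (if o then 1 else -1)
    rw [add_comm]

theorem aux_W {r : ℕ} {x y : Lb r} {hx hy} {o p : Bool} (hop : o ≠ p)
    (h : wt x + wt y = ones r) : W (r := r) (⟨x, hx⟩, o) + W (⟨y, hy⟩, p) = 0 := by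
  refine Prod.ext ?_ ?_
  · show (wt x - (if o then 0 else ones r)) + (wt y - (if p then 0 else ones r)) = 0
    rw [sub_add_sub_comm, h]
    cases o <;> cases p <;> simp_all
  · show (if o then (1 : ℤ) else -1) + (if p then 1 else -1) = 0
    cases o <;> cases p <;> simp_all

theorem cup_W {r : ℕ} (x y : SL r) (h : (tdata Q r).cup x y ≠ 0) : W x + W y = 0 := by
  obtain ⟨⟨x, hx⟩, o⟩ := x
  obtain ⟨⟨y, hy⟩, p⟩ := y
  have h' : (if o ≠ p then cupv Q r x y else 0) ≠ 0 := h
  have h0 : o ≠ p := by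
    intro h0
    exact h' (if_neg (not_not.mpr h0))
  rw [if_pos h0] at h'
  exact aux_W h0 (cupv_wt Q x y h')

theorem cap_W {r : ℕ} (x y : SL r) (h : (tdata Q r).cap x y ≠ 0) : W x + W y = 0 := by
  obtain ⟨⟨x, hx⟩, o⟩ := x
  obtain ⟨⟨y, hy⟩, p⟩ := y
  have h' : (if o ≠ p then capv Q r x y else 0) ≠ 0 := h
  have h0 : o ≠ p := by
    intro h0
    exact h' (if_neg (not_not.mpr h0))
  rw [if_pos h0] at h'
  exact aux_W h0 (capu_wt Q x y (right_ne_zero_of_mul h'))

/-- a vector supported on lists of length `n` and weight `w` -/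
def Sup {r : ℕ} (n : ℕ) (w : (ℕ → ℤ) × ℤ) (ψ : List (SL r) → A) : Prop :=
  ∀ l, ψ l ≠ 0 → l.length = n ∧ (l.map W).sum = w

theorem ap0_sup {r : ℕ} (k : Kind) {n : ℕ} {w : (ℕ → ℤ) × ℤ} {ψ : List (SL r) → A}
    (h : Sup n w ψ) (hn : k.ins ≤ n) : Sup (n - k.ins + k.outs) w ((tdata Q r).ap0 k ψ) := by
  intro l hl
  cases k with
  | cup =>
    match l, hl with
    | [], hl => exact absurd rfl hl
    | [x], hl => exact absurd rfl hl
    | x :: y :: l, hl =>
      have hl' : (tdata Q r).cup x y * ψ l ≠ 0 := hl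
      obtain ⟨h1, h2⟩ := h l (right_ne_zero_of_mul hl')
      refine ⟨?_, ?_⟩
      · simp only [List.length_cons, h1, Kind.ins, Kind.outs]
        omega
      · rw [List.map_cons, List.map_cons, List.sum_cons, List.sum_cons, ← add_assoc,
          cup_W Q x y (left_ne_zero_of_mul hl'), zero_add, h2]
  | cap =>
    have hl' : ∑ a, ∑ b, (tdata Q r).cap a b * ψ (a :: b :: l) ≠ 0 := hl
    obtain ⟨a, -, ha⟩ := Finset.exists_ne_zero_of_sum_ne_zero hl'
    obtain ⟨b, -, hb⟩ := Finset.exists_ne_zero_of_sum_ne_zero ha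
    obtain ⟨h1, h2⟩ := h _ (right_ne_zero_of_mul hb)
    refine ⟨?_, ?_⟩
    · simp only [List.length_cons] at h1
      simp only [Kind.ins, Kind.outs]
      omega
    · rw [List.map_cons, List.map_cons, List.sum_cons, List.sum_cons, ← add_assoc,
        cap_W Q a b (left_ne_zero_of_mul hb), zero_add] at h2
      exact h2
  | crs e =>
    match l, hl with
    | [], hl => exact absurd rfl hl
    | [x], hl => exact absurd rfl hl
    | x :: y :: l, hl =>
      have hl' : ∑ a, ∑ b, (tdata Q r).R e x y a b * ψ (a :: b :: l) ≠ 0 := hl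
      obtain ⟨a, -, ha⟩ := Finset.exists_ne_zero_of_sum_ne_zero hl'
      obtain ⟨b, -, hb⟩ := Finset.exists_ne_zero_of_sum_ne_zero ha
      obtain ⟨h1, h2⟩ := h _ (right_ne_zero_of_mul hb)
      refine ⟨?_, ?_⟩
      · simp only [List.length_cons] at h1 ⊢
        simp only [Kind.ins, Kind.outs]
        omega
      · rw [List.map_cons, List.map_cons, List.sum_cons, List.sum_cons, ← add_assoc,
          R_W Q e x y a b (left_ne_zero_of_mul hb), add_assoc, ← List.sum_cons, ← List.sum_cons,
          ← List.map_cons, ← List.map_cons, h2]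

theorem ap_sup {r : ℕ} (k : Kind) : ∀ (i n : ℕ) (w : (ℕ → ℤ) × ℤ) (ψ : List (SL r) → A),
    Sup n w ψ → i + k.ins ≤ n → Sup (n - k.ins + k.outs) w ((tdata Q r).ap k i ψ)
  | 0, n, w, ψ, h, hn => ap0_sup Q k h (by omega)
  | i + 1, n, w, ψ, h, hn => by
    intro l hl
    match l, hl with
    | [], hl => exact absurd rfl hl
    | a :: l, hl =>
      have h' : Sup (n - 1) (w - W a) (fun l' => ψ (a :: l')) := by
        intro l' hl'
        obtain ⟨h1, h2⟩ := h _ hl'
        refine ⟨?_, ?_⟩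
        · rw [List.length_cons] at h1
          omega
        · rw [List.map_cons, List.sum_cons] at h2
          rw [← h2, add_sub_cancel_left]
      obtain ⟨h1, h2⟩ := ap_sup k i (n - 1) (w - W a) _ h' (by omega) l hl
      refine ⟨?_, ?_⟩
      · rw [List.length_cons, h1]
        omega
      · rw [List.map_cons, List.sum_cons, h2, add_sub_cancel]

theorem st_sup {r : ℕ} : ∀ (u : Diag) (n m : ℕ) (w : (ℕ → ℤ) × ℤ) (ψ : List (SL r) → A),
    Sup n w ψ → cnt n u = some m → Sup m w ((tdata Q r).st u ψ)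
  | [], n, m, w, ψ, h, hu => by
    have : n = m := by
      simpa [cnt] using hu
    subst this
    exact h
  | (k, i) :: u, n, m, w, ψ, h, hu => by
    have hi : i + k.ins ≤ n := by
      by_contra hi
      simp [cnt, hi] at hu
    have hu' : cnt (n - k.ins + k.outs) u = some m := by
      simpa [cnt, hi] using hu
    exact st_sup u _ m w _ (ap_sup Q k i n w ψ h hi) hu'

end

section

variable {A S : Type} [CommRing A] [Fintype S] (T : TData A S)

theorem ap0_smul (c : A) (k : Kind) (ψ : List S → A) (l : List S) :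
    T.ap0 k (fun l => c * ψ l) l = c * T.ap0 k ψ l := by
  cases k with
  | cup =>
    match l with
    | [] => exact (mul_zero c).symm
    | [x] => exact (mul_zero c).symm
    | x :: y :: l =>
      show T.cup x y * (c * ψ l) = c * (T.cup x y * ψ l)
      ring
  | cap =>
    show ∑ a, ∑ b, T.cap a b * (c * ψ (a :: b :: l)) = c * ∑ a, ∑ b, T.cap a b * ψ (a :: b :: l)
    rw [Finset.mul_sum]
    refine Finset.sum_congr rfl fun a _ => ?_
    rw [Finset.mul_sum]
    refine Finset.sum_congr rfl fun b _ => ?_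
    ring
  | crs e =>
    match l with
    | [] => exact (mul_zero c).symm
    | [x] => exact (mul_zero c).symm
    | x :: y :: l =>
      show ∑ a, ∑ b, T.R e x y a b * (c * ψ (a :: b :: l)) =
        c * ∑ a, ∑ b, T.R e x y a b * ψ (a :: b :: l)
      rw [Finset.mul_sum]
      refine Finset.sum_congr rfl fun a _ => ?_
      rw [Finset.mul_sum]
      refine Finset.sum_congr rfl fun b _ => ?_
      ring

theorem ap_smul (c : A) (k : Kind) : ∀ (i : ℕ) (ψ : List S → A) (l : List S),
    T.ap k i (fun l => c * ψ l) l = c * T.ap k i ψ l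
  | 0, ψ, l => ap0_smul T c k ψ l
  | _ + 1, _, [] => (mul_zero c).symm
  | i + 1, ψ, a :: l => ap_smul c k i (fun l' => ψ (a :: l')) l

theorem st_smul (c : A) : ∀ (u : Diag) (ψ : List S → A),
    T.st u (fun l => c * ψ l) = fun l => c * T.st u ψ l
  | [], _ => rfl
  | (k, i) :: u, ψ => by
    have h : T.ap k i (fun l => c * ψ l) = fun l => c * T.ap k i ψ l :=
      funext fun l => ap_smul T c k i ψ l
    show T.st u (T.ap k i (fun l => c * ψ l)) = fun l => c * T.st u (T.ap k i ψ) l
    rw [h, st_smul c u]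

theorem st_append : ∀ (u v : Diag) (ψ : List S → A), T.st (u ++ v) ψ = T.st v (T.st u ψ)
  | [], _, _ => rfl
  | (k, i) :: u, v, ψ => st_append u v (T.ap k i ψ)

end

end Pool.Agent.TS.MUL

namespace Pool.Agent.TS

open Pool.Agent.LibH11.Sliced Pool.Agent.TB MUL

theorem mul : MUL_Stmt := by
  intro A _ Q r u v hu hv
  set δ : List (SL r) → A := fun l => if l = [s0 r] then 1 else 0 with hδ
  have hsup : Sup 1 (W (s0 r)) δ := by
    intro l hl
    have hl' : l = [s0 r] := by
      by_contra h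
      exact hl (if_neg h)
    subst hl'
    exact ⟨rfl, by simp⟩
  have h1 := st_sup Q u 1 1 (W (s0 r)) δ hsup hu
  have h2 : (tdata Q r).st u δ = fun l => (tdata Q r).J (s0 r) u * δ l := by
    funext l
    by_cases hl : l = [s0 r]
    · subst hl
      show (tdata Q r).st u δ [s0 r] = (tdata Q r).st u δ [s0 r] * δ [s0 r]
      rw [show δ [s0 r] = 1 from if_pos rfl, mul_one]
    · have hz : (tdata Q r).st u δ l = 0 := by
        by_contra hne
        obtain ⟨ha, hb⟩ := h1 l hne
        match l, ha, hb, hl with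
        | [x], _, hb, hl =>
          rw [List.map_singleton, List.sum_singleton] at hb
          exact hl (by rw [W_s0 hb])
      rw [hz, show δ l = 0 from if_neg hl, mul_zero]
  show (tdata Q r).st (u ++ v) δ [s0 r] = _
  rw [MUL.st_append, h2, MUL.st_smul]
  rfl

end Pool.Agent.TS
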