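import Pool.Agent.TS.Stmts
import Pool.Agent.TB.Ot

/-!
Finite type invariants of connected sums of 2-bridge knots: OTM, transfer of the equality of
products of universal values from the power series to the dual numbers.
-/

open Polynomial
open scoped BigOperators Real

namespace Pool.Agent.TS

open Pool.Agent.TB

namespace OTM

/-- a ring homomorphism maps the product of the universal values to the product of the images -/
theorem prod_map {A B : Type} [CommRing A] [CommRing B] (hn : NAT_Stmt) (φ : A →+* B) (Q : QP A)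
    (r : ℕ) (hG : Q.Gen r) (xs : List (List ℤ)) :
    (xs.map (Jval (Q.map φ) r)).prod = φ (xs.map (Jval Q r)).prod := by
  rw [map_list_prod, List.map_map]
  congr 1
  apply List.map_congr_left
  intro x _
  exact ((hn _ _ φ Q r hG).2 x).symm

end OTM

/-- OTM. -/
theorem otm (hb : BRK_Stmt) (hn : NAT_Stmt) : OTM_Stmt := by
  intro r s0 hG xs ys hxy
  have hGO := OT.gen s0 hb r hG
  have e1 : (OT.QO s0).map (OT.lft s0 OT.g1 (OT.g1_unit s0)) = QPS := by
    refine OT.map_eq s0 _ _ _ ?_ ?_
    · show eval₂ _ _ X = _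
      rw [eval₂_X]
      rfl
    · show eval₂ _ _ (C Complex.I) = _
      rw [eval₂_C]
      rfl
  have e2 : (OT.QO s0).map (OT.lft s0 (OT.g2 s0) (OT.g2_unit s0)) = QD s0 := by
    refine OT.map_eq s0 _ _ _ ?_ ?_
    · show eval₂ _ _ X = _
      rw [eval₂_X]
    · show eval₂ _ _ (C Complex.I) = _
      rw [eval₂_C]
      rfl
  have hinj : Function.Injective (OT.lft s0 OT.g1 (OT.g1_unit s0)) := by
    rw [injective_iff_map_eq_zero]
    intro u hu
    obtain ⟨⟨a, b⟩, hab⟩ := IsLocalization.surj (OT.MM s0) u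
    have h := congrArg (OT.lft s0 OT.g1 (OT.g1_unit s0)) hab
    rw [map_mul, hu, zero_mul, OT.lft_alg] at h
    have ha : a = 0 := OT.g1_inj (by rw [← h, map_zero])
    simp only at hab
    rw [ha, map_zero] at hab
    exact (IsUnit.mul_left_eq_zero (IsLocalization.map_units (OT.OO s0) b)).1 hab
  have n1 := OTM.prod_map hn (OT.lft s0 OT.g1 (OT.g1_unit s0)) (OT.QO s0) r hGO
  have n2 := OTM.prod_map hn (OT.lft s0 (OT.g2 s0) (OT.g2_unit s0)) (OT.QO s0) r hGO
  rw [e1] at n1
  rw [e2] at n2
  rw [n1, n1] at hxy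
  rw [n2, n2, hinj hxy]

end Pool.Agent.TS
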