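import Pool.Agent.TS.Stmts

/-!
Connected sums of 2-bridge knots, module RCR: the counting function of the reversed word.
-/

namespace Pool.Agent.TS

open Pool.Agent.TB

namespace RCR

/-- the change of coordinates -/
def ch (A B d k : ℤ) (R : ℤ × ℤ) : ℤ × ℤ := (B * R.1 - k * R.2, d * R.1 - A * R.2)

theorem ch_ch (A B d k : ℤ) (h : A * B - 1 = d * k) (R : ℤ × ℤ) :
    ch B A d k (ch A B d k R) = R := by
  have h1 : A * B = d * k + 1 := by linarith
  unfold ch
  ext
  · simp only
    linear_combination R.1 * h1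
  · simp only
    linear_combination R.2 * h1

/-- the equivalence -/
def chE (A B d k : ℤ) (h : A * B - 1 = d * k) : ℤ × ℤ ≃ ℤ × ℤ where
  toFun := ch A B d k
  invFun := ch B A d k
  left_inv := ch_ch A B d k h
  right_inv := ch_ch B A d k (by rw [mul_comm]; exact h)

theorem Nf_eq (x : List ℤ) (R : ℤ × ℤ) :
    Nf x R = R.2 * (R.1 * (lastv x).2 - R.2 * (lastv x).1) := by
  unfold Nf det2
  ring

end RCR

theorem rcr (hr : RVC_Stmt) : RCR_Stmt := by
  intro x hx e M
  obtain ⟨h1, k, hk⟩ := hr x hx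
  unfold rc
  have h2 : {R : ℤ × ℤ | e * Nf x.reverse R = M} =
      (RCR.chE (lastv x).1 (lastv x.reverse).1 (lastv x).2 k hk) '' {R : ℤ × ℤ | e * Nf x R = M} := by
    ext R
    rw [Equiv.image_eq_preimage_symm]
    simp only [Set.mem_ofPred_eq, Set.mem_preimage]
    have h3 : Nf x ((RCR.chE (lastv x).1 (lastv x.reverse).1 (lastv x).2 k hk).symm R) =
        Nf x.reverse R := by
      have h4 : (RCR.chE (lastv x).1 (lastv x.reverse).1 (lastv x).2 k hk).symm R =
        RCR.ch (lastv x.reverse).1 (lastv x).1 (lastv x).2 k R := rfl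
      rw [h4, RCR.Nf_eq, RCR.Nf_eq, h1]
      unfold RCR.ch
      simp only
      linear_combination R.2 * ((lastv x).2 * R.1 - (lastv x.reverse).1 * R.2) * hk
    rw [h3]
  rw [h2, Set.ncard_image_of_injective _ (Equiv.injective _)]

end Pool.Agent.TS
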