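import Pool.Agent.TS.Stmts
import Pool.Agent.TB.Tel

/-!
Finite type invariants separate the connected sums of 2-bridge knots: the limit of the cot sums
`Ze` (TELM).
-/

open Filter Topology
open scoped BigOperators Real

namespace Pool.Agent.TS

open Pool.Agent.TB

namespace TELM

/-- The set of solutions of `e N(R) = M` is finite. -/
lemma finite_sol (x : List ℤ) (hd : (lastv x).2 ≠ 0) (e M : ℤ) (he : e ≠ 0) (hM : M ≠ 0) :
    {R : ℤ × ℤ | e * Nf x R = M}.Finite := by
  by_cases h : ∃ R0 : ℤ × ℤ, e * Nf x R0 = M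
  · obtain ⟨R0, hR0⟩ := h
    have hN : Nf x R0 ≠ 0 := by
      intro h0
      rw [h0, mul_zero] at hR0
      exact hM hR0.symm
    refine (TEL.finite_sol x hd (Nf x R0) hN).subset ?_
    intro R hR
    have hR' : e * Nf x R = M := hR
    exact mul_left_cancel₀ he (hR'.trans hR0.symm)
  · refine (Set.finite_empty (α := ℤ × ℤ)).subset ?_
    intro R hR
    exact (h ⟨R, hR⟩).elim

end TELM

open TEL in
theorem telm (hc : CHN_Stmt) (hl : LIM_Stmt) : TELM_Stmt := by
  intro x hx e M he hM
  obtain ⟨c1, c2, c3, c4, c5, c6, -⟩ := hc x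
  have hM' : M ≠ 0 := by
    rintro rfl
    simp at hM
  have he' : e ≠ 0 := by
    rintro rfl
    simp at he
  have hVodd : Odd (x.length + 1) := hx.add_one
  have hV : Even (lastv x).1 ∧ Odd (lastv x).2 := c3 _ hVodd
  have hd : (lastv x).2 ≠ 0 := by
    intro h
    have := hV.2
    rw [h] at this
    simp at this
  have hfin := TELM.finite_sol x hd e M he' hM'
  refine ⟨hfin, ?_⟩
  let Z : Finset (ℤ × ℤ) := hfin.toFinset
  have hZ : ∀ R, R ∈ Z ↔ e * Nf x R = M := fun R => by simp [Z]
  have hεε : ∀ j : ℕ, ((-1 : ℤ) ^ j) * (-1) ^ j = 1 := fun j => by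
    rw [← mul_pow]; simp
  -- the limit for each `j`
  have key : ∀ j : ℕ, Tendsto (fun s : ℕ => ((π : ℂ) / 2 ^ s) ^ 2 *
      ∑ R : ZMod (2 ^ s) × ZMod (2 ^ s),
        if (e : ZMod (2 ^ s)) * Nm (2 ^ s) x R = ((M : ℤ) : ZMod (2 ^ s)) then
        ct (2 ^ s) (detm (2 ^ s) R (chain x j)) * ct (2 ^ s) (detm (2 ^ s) R (chain x (j + 1)))
        else 0) atTop
      (𝓝 (∑ R ∈ Z, 1 / ((det2 R (chain x j) : ℂ) * (det2 R (chain x (j + 1)) : ℂ)))) := by
    intro j
    set g := chain x j with hgdef
    set h := chain x (j + 1) with hhdef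
    have hgh : det2 g h = (-1) ^ j := c1 j
    set ε : ℤ := (-1) ^ j with hεdef
    have hε : ε * ε = 1 := hεε j
    set B : ℤ := det2 (1, 0) g * det2 h (lastv x) + det2 (1, 0) h * det2 g (lastv x) with hB
    have hBodd : Odd B := c6 hx j
    have hform : ∀ a b : ℤ, Nf x (b • g - a • h) =
        b ^ 2 * Nf x g + a ^ 2 * Nf x h - a * b * B := c5 j
    let ψ : ℤ × ℤ → ℤ × ℤ := fun R => (det2 R g, det2 R h)
    have hinv : ∀ R : ℤ × ℤ, ε • ((det2 R h) • g - (det2 R g) • h) = R := by
      rintro ⟨r1, r2⟩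
      have hgh' : g.1 * h.2 - g.2 * h.1 = ε := hgh
      ext
      · simp only [det2, Prod.smul_fst, Prod.fst_sub, smul_eq_mul]
        linear_combination (ε * r1) * hgh' + r1 * hε
      · simp only [det2, Prod.smul_snd, Prod.snd_sub, smul_eq_mul]
        linear_combination (ε * r2) * hgh' + r2 * hε
    have hψ : Function.Injective ψ := by
      intro R S hRS
      rw [← hinv R, ← hinv S]
      have h1 : det2 R g = det2 S g := congrArg Prod.fst hRS
      have h2 : det2 R h = det2 S h := congrArg Prod.snd hRS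
      rw [h1, h2]
    have hlim := hl (e * Nf x h) (e * -B) (e * Nf x g) M ((c4 hx (j + 1)).mul_left e)
      (he.mul hBodd.neg) ((c4 hx j).mul_left e) hM
      (Z.image ψ) (by
        rintro ⟨a, b⟩
        simp only [Finset.mem_image]
        constructor
        · rintro ⟨R, hR, hRab⟩
          have ha : det2 R g = a := congrArg Prod.fst hRab
          have hb : det2 R h = b := congrArg Prod.snd hRab
          rw [hZ] at hR
          rw [← hR, ← hinv R, Nf_smul x ε hε, ha, hb, hform]
          ring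
        · intro hab
          refine ⟨ε • (b • g - a • h), ?_, ?_⟩
          · rw [hZ, Nf_smul x ε hε, hform, ← hab]
            ring
          · have hgh' : g.1 * h.2 - g.2 * h.1 = ε := hgh
            change (det2 _ g, det2 _ h) = (a, b)
            simp only [det2, Prod.smul_fst, Prod.smul_snd, Prod.fst_sub, Prod.snd_sub,
              smul_eq_mul, Prod.mk.injEq]
            constructor
            · linear_combination (ε * a) * hgh' + a * hε
            · linear_combination (ε * b) * hgh' + b * hε)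
    rw [Finset.sum_image hψ.injOn] at hlim
    refine hlim.congr ?_
    intro s
    congr 1
    rw [sum_change (2 ^ s) g h ε hε hgh (fun a b R =>
      if (e : ZMod (2 ^ s)) * Nm (2 ^ s) x R = ((M : ℤ) : ZMod (2 ^ s)) then
        ct (2 ^ s) a * ct (2 ^ s) b else 0)]
    refine Finset.sum_congr rfl fun a _ => Finset.sum_congr rfl fun b _ => ?_
    obtain ⟨a', rfl⟩ := ZMod.intCast_surjective a
    obtain ⟨b', rfl⟩ := ZMod.intCast_surjective b
    have h5 : Nm (2 ^ s) x ((ε : ZMod (2 ^ s)) * ((b' : ZMod (2 ^ s)) * g.1 -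
        (a' : ZMod (2 ^ s)) * h.1), (ε : ZMod (2 ^ s)) * ((b' : ZMod (2 ^ s)) * g.2 -
        (a' : ZMod (2 ^ s)) * h.2)) = ((Nf x (b' • g - a' • h) : ℤ) : ZMod (2 ^ s)) := by
      rw [← Nf_smul x ε hε, ← Nm_cast]
      congr 1
      ext <;> simp
    rw [h5, hform]
    congr 1
    push_cast
    rw [eq_iff_iff]
    constructor
    · intro h6
      rw [← h6]
      ring
    · intro h6
      rw [← h6]
      ring
  -- sum over `j`
  have hsum : Tendsto (fun s : ℕ => ∑ j ∈ Finset.range (x.length + 1), (-1 : ℂ) ^ j *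
      (((π : ℂ) / 2 ^ s) ^ 2 *
      ∑ R : ZMod (2 ^ s) × ZMod (2 ^ s),
        if (e : ZMod (2 ^ s)) * Nm (2 ^ s) x R = ((M : ℤ) : ZMod (2 ^ s)) then
        ct (2 ^ s) (detm (2 ^ s) R (chain x j)) * ct (2 ^ s) (detm (2 ^ s) R (chain x (j + 1)))
        else 0)) atTop
      (𝓝 (∑ j ∈ Finset.range (x.length + 1), (-1 : ℂ) ^ j *
        (∑ R ∈ Z, 1 / ((det2 R (chain x j) : ℂ) * (det2 R (chain x (j + 1)) : ℂ))))) :=
    tendsto_finsetSum _ fun j _ => (key j).const_mul _
  have hlimit : ∑ j ∈ Finset.range (x.length + 1), (-1 : ℂ) ^ j *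
        (∑ R ∈ Z, 1 / ((det2 R (chain x j) : ℂ) * (det2 R (chain x (j + 1)) : ℂ))) =
      -((e * (lastv x).2 : ℤ) : ℂ) / M * (rc e x M : ℂ) := by
    have h1 : ∀ R ∈ Z, ∑ j ∈ Finset.range (x.length + 1), (-1 : ℂ) ^ j *
        (1 / ((det2 R (chain x j) : ℂ) * (det2 R (chain x (j + 1)) : ℂ))) =
        -((e * (lastv x).2 : ℤ) : ℂ) / M := by
      intro R hR
      rw [hZ] at hR
      have hNf : Nf x R = R.2 * (R.1 * (lastv x).2 - R.2 * (lastv x).1) := by
        simp [Nf, det2]
      have hN0 : Odd (Nf x R) := by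
        rw [← hR] at hM
        exact (Int.odd_mul.1 hM).2
      have hNne : Nf x R ≠ 0 := by
        intro h0
        rw [h0] at hN0
        simp at hN0
      have hodd : Odd R.2 ∧ Odd (R.1 * (lastv x).2 - R.2 * (lastv x).1) := by
        rw [hNf] at hN0
        exact Int.odd_mul.1 hN0
      have hodd1 : Odd R.1 := by
        have h2 : Odd (R.1 * (lastv x).2) := by
          have h3 := hodd.2.add_even (hV.1.mul_left R.2)
          rwa [sub_add_cancel] at h3
        exact (Int.odd_mul.1 h2).1
      have hne : ∀ j, det2 R (chain x j) ≠ 0 := by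
        intro j h0
        have h2 : Odd (det2 R (chain x j)) := by
          rcases Nat.even_or_odd j with hj | hj
          · exact (((c2 j hj).2.mul_left R.1).sub_odd (hodd.1.mul (c2 j hj).1))
          · exact ((hodd1.mul (c3 j hj).2).sub_even ((c3 j hj).1.mul_left R.2))
        rw [h0] at h2
        simp at h2
      rw [tele (chain x) c1 R hne]
      have h3 : chain x (x.length + 1) = lastv x := rfl
      have h4 : chain x 0 = (1, 0) := by simp [chain]
      rw [h3, h4]
      have h5 : (det2 R (1, 0) : ℂ) * (det2 R (lastv x) : ℂ) = -((Nf x R : ℤ) : ℂ) := by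
        rw [hNf]
        simp only [det2]
        push_cast
        ring
      have h6 : (det2 (1, 0) (lastv x) : ℂ) = ((lastv x).2 : ℂ) := by simp [det2]
      rw [h5, h6]
      have heC : (e : ℂ) ≠ 0 := by exact_mod_cast he'
      have hNC : ((Nf x R : ℤ) : ℂ) ≠ 0 := by exact_mod_cast hNne
      have hMC : (M : ℂ) = (e : ℂ) * ((Nf x R : ℤ) : ℂ) := by
        rw [← hR]
        push_cast
        rfl
      rw [hMC]
      push_cast
      field_simp
    simp_rw [Finset.mul_sum]
    rw [Finset.sum_comm]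
    rw [Finset.sum_congr rfl h1, Finset.sum_const, nsmul_eq_mul, mul_comm]
    congr 2
    rw [rc, Set.ncard_eq_toFinset_card _ hfin]
  rw [← hlimit]
  refine hsum.congr ?_
  intro s
  rw [Ze, Finset.mul_sum]
  refine Finset.sum_congr rfl fun j _ => ?_
  ring

end Pool.Agent.TS
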