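import Pool.Agent.TB.Final
import Pool.Agent.TS.Fins
import Pool.Agent.TS.Cat
import Pool.Agent.TS.Natx
import Pool.Agent.TS.Bead
import Pool.Agent.TS.Com
import Pool.Agent.TS.Mul
import Pool.Agent.TS.Otm
import Pool.Agent.TS.Lgm
import Pool.Agent.TS.Dscm
import Pool.Agent.TS.Telm
import Pool.Agent.TS.Rcr
import Pool.Agent.TS.Cntm
import Pool.Agent.TwoBr.Concl
import Pool.Agent.TwoBr.TwoBridge

/-!
Finite type invariants separate the connected sums of 2-bridge knots: assembly.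
-/

namespace Pool.Agent.TS

open Pool.Agent.LibH11.Sliced Pool.Agent.TB Pool.Agent.TwoBr

theorem fins_all : FINS_Stmt :=
  have hbrk := Pool.Agent.TB.brk
  have hemb := Pool.Agent.TB.emb
  have hrel := Pool.Agent.TB.rel
  have hspec := Pool.Agent.TB.spec Pool.Agent.TB.brk
  have hfc := Pool.Agent.TB.fc
  have hbrd := Pool.Agent.TB.brd hbrk hfc
  have htop := Pool.Agent.TB.top hbrk hspec hfc
  have hrpr := Pool.Agent.TB.rpr hbrk
  have hcup := Pool.Agent.TB.cup
  have hsld := Pool.Agent.TB.sld hemb hrel hspec hfc hbrd htop hrpr hcup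
  have htdg := Pool.Agent.TB.tdg hemb hrel hspec hfc hbrd hrpr hcup hsld
  have hval := Pool.Agent.TB.val hemb hbrk hrel hspec hfc htop hrpr hcup Pool.Agent.TB.unv
  have hzt := Pool.Agent.TB.zt_basic
  have hgrt := Pool.Agent.TB.grt hbrk
  have hlft := Pool.Agent.TB.lft hzt
  have heig := Pool.Agent.TB.eig hbrk hzt
  have htor := Pool.Agent.TB.tor hbrk hfc Pool.Agent.TB.unv hzt hgrt hlft heig
    (Pool.Agent.TB.nn hzt) (Pool.Agent.TB.mu hzt) Pool.Agent.TB.the
  have hego := Pool.Agent.TB.ego hzt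
  have hchn := Pool.Agent.TB.chn
  have hexpt := Pool.Agent.TB.expt hzt hego hchn
  have hlam := Pool.Agent.TB.lam hzt Pool.Agent.TB.der hexpt Pool.Agent.TB.fou hchn
  have hjnz := Pool.Agent.TB.jnz hzt hchn
  have hrvc := Pool.Agent.TB.rvc
  have hcfu := Pool.Agent.TB.cfu
  fins Pool.Agent.TB.klk (Pool.Agent.TB.ftm Pool.Agent.TB.inv Pool.Agent.TB.fti) htdg hval
    Pool.Agent.TB.hz (Pool.Agent.TB.gps hbrk) hgrt hchn
    (fun _ hx => Pool.Agent.TwoBr.rev_kdiag hx) (com (bead natx)) mul (otm hbrk Pool.Agent.TB.nat)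
    (lgm htor hjnz hlam) (dscm hchn) (telm hchn Pool.Agent.TB.lim)
    (cntm hchn hcfu hrvc (rcr hrvc))

theorem separation_all {K K' : Knot} {ws ws' : List Diag} (h : IsLongKnot ws.flatten)
    (h' : IsLongKnot ws'.flatten)
    (hws : ∀ w ∈ ws, IsLongKnot w ∧ minima w ≤ 1) (hws' : ∀ w ∈ ws', IsLongKnot w ∧ minima w ≤ 1)
    (hK : K = ofDiag ws.flatten h) (hK' : K' = ofDiag ws'.flatten h')
    (hv : ∀ v : Knot → ℚ, IsFiniteType v → v K = v K') : K = K' :=
  separation_sums Pool.Agent.TB.klk (fun w hw => Pool.Agent.TwoBr.nf_KW w hw) fins_all h h' hws hws'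
    hK hK' hv

end Pool.Agent.TS
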