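import Pool.Agent.TB.Stmts2
import Pool.Agent.TwoBr.Concl

/-!
Finite type invariants separate the connected sums of 2-bridge knots: definitions and statements of
the modules. See PAPER.md in this folder and in Pool/Agent/TB.
-/

open Filter Topology
open scoped BigOperators Real

namespace Pool.Agent.TS

open Pool.Agent.LibH11.Sliced Pool.Agent.TB Pool.Agent.TwoBr

/-- the connected sum of the knots `K_x`, `x ∈ xs` (the long diagrams are stacked) -/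
def sumd (xs : List (List ℤ)) : Diag := (xs.map kdiag).flatten

/-- the sums over `e N(R) = M` modulo `n` -/
noncomputable def Ze (n : ℕ) [NeZero n] (e : ℤ) (x : List ℤ) (M : ZMod n) : ℂ :=
  ∑ j ∈ Finset.range (x.length + 1), (-1 : ℂ) ^ j *
    ∑ R : ZMod n × ZMod n, if (e : ZMod n) * Nm n x R = M then
      ct n (detm n R (chain x j)) * ct n (detm n R (chain x (j + 1))) else 0

/-- the number of integral vectors `R` with `e N(R) = M` -/
noncomputable def rc (e : ℤ) (x : List ℤ) (M : ℤ) : ℕ := {R : ℤ × ℤ | e * Nf x R = M}.ncard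

/-! ### Topology -/

/-- CAT: stacking long knot diagrams. -/
def CAT_Stmt : Prop := ∀ u v : Diag, IsLongKnot u → IsLongKnot v → IsLongKnot (u ++ v)

/-- the last one of `n + 1` strands moves to the left end, across the other `n` strands -/
def XX (e : Bool) : ℕ → Diag
  | 0 => []
  | n + 1 => (Kind.crs e, n) :: XX e n

/-- NATX: a strand passes across a diagram. -/
def NATX_Stmt : Prop :=
  ∀ (e : Bool) (f : Diag) (n m : ℕ), cnt n f = some m →
    EqD (n + 1) (f ++ XX e m) (XX e n ++ sh 1 f)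

/-- BEAD: a (1,1)-diagram slides along a strand of a braid with two strands, and along a minimum
and a maximum. -/
def BEAD_Stmt : Prop :=
  ∀ f : Diag, cnt 1 f = some 1 →
    (∀ e, EqD 2 (f ++ [(.crs e, 0)]) ([(.crs e, 0)] ++ sh 1 f)) ∧
    (∀ e, EqD 2 (sh 1 f ++ [(.crs e, 0)]) ([(.crs e, 0)] ++ f)) ∧
    (let g := [(Kind.cup, 0)] ++ sh 1 f ++ [(Kind.cap, 1)]
     let h := [(Kind.cup, 1)] ++ sh 1 g ++ [(Kind.cap, 0)]
     cnt 1 g = some 1 ∧ cnt 1 h = some 1 ∧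
     EqD 2 (f ++ [(.cap, 0)]) (sh 1 g ++ [(.cap, 0)]) ∧
     EqD 0 ([(.cup, 0)] ++ g) ([(.cup, 0)] ++ sh 1 h) ∧
     EqD 1 h f)

/-- COM: the diagram of a 2-bridge knot commutes with every (1,1)-diagram. -/
def COM_Stmt : Prop :=
  ∀ (x : List ℤ) (f : Diag), cnt 1 f = some 1 → EqD 1 (f ++ kdiag x) (kdiag x ++ f)

/-! ### Algebra -/

/-- MUL: the functor is multiplicative on (1,1)-diagrams. -/
def MUL_Stmt : Prop :=
  ∀ (A : Type) [CommRing A] (Q : QP A) (r : ℕ) (u v : Diag), cnt 1 u = some 1 → cnt 1 v = some 1 →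
    (tdata Q r).J (s0 r) (u ++ v) = (tdata Q r).J (s0 r) u * (tdata Q r).J (s0 r) v

/-- OTM: transfer of an equality of products. -/
def OTM_Stmt : Prop :=
  ∀ (r : ℕ) (s0 : ℂˣ), (QC s0).Gen r → ∀ xs ys : List (List ℤ),
    (xs.map (Jval QPS r)).prod = (ys.map (Jval QPS r)).prod →
    (xs.map (Jval (QD s0) r)).prod = (ys.map (Jval (QD s0) r)).prod

/-- LGM: sums of logarithmic derivatives. -/
def LGM_Stmt : Prop :=
  ∀ (xs ys : List (List ℤ)) (D : ℤ), xs.length = ys.length →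
    (∀ x ∈ xs, Even x.length ∧ (lastv x).2 ∣ D) → (∀ y ∈ ys, Even y.length ∧ (lastv y).2 ∣ D) →
    Odd D →
    (∀ r : ℕ, 0 < r → Even r → ∀ ι : ℤ, IsCoprime ι (4 * r : ℤ) →
      (xs.map (Jval (QD (sz (2 * r) ι)) r)).prod = (ys.map (Jval (QD (sz (2 * r) ι)) r)).prod) →
    ∀ s : ℕ, 2 ≤ s → ∀ τ : ZMod (2 ^ s), IsUnit τ →
      (xs.map fun x => Sx (2 ^ s) x (((D / (lastv x).2 : ℤ) : ZMod (2 ^ s)) * τ)).sum -
        (ys.map fun y => Sx (2 ^ s) y (((D / (lastv y).2 : ℤ) : ZMod (2 ^ s)) * τ)).sum =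
        (((2 ^ s : ℕ) : ℂ) ^ 2 - 1) / 6 *
          ((xs.map fun x => ((x.sum : ℤ) : ℂ)).sum - (ys.map fun y => ((y.sum : ℤ) : ℂ)).sum)

/-! ### Descent, limit, arithmetic -/

/-- DSCM: descent for linear combinations. -/
def DSCM_Stmt : Prop :=
  ∀ L : List (ℂ × ℤ × List ℤ), (∀ t ∈ L, Even t.2.2.length) →
    (∀ s : ℕ, 2 ≤ s → ∀ τ : ZMod (2 ^ s), IsUnit τ →
      (L.map fun t => t.1 * Sx (2 ^ s) t.2.2 ((t.2.1 : ZMod (2 ^ s)) * τ)).sum =
        (((2 ^ s : ℕ) : ℂ) ^ 2 - 1) / 6 * (L.map fun t => t.1 * ((t.2.2.sum : ℤ) : ℂ)).sum) →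
    ∀ s : ℕ, 1 ≤ s → ∀ M : ℤ, Odd M →
      (L.map fun t => t.1 * Ze (2 ^ s) t.2.1 t.2.2 (M : ℤ)).sum = 0

/-- TELM: the limit of `Ze`. -/
def TELM_Stmt : Prop :=
  ∀ x : List ℤ, Even x.length → ∀ e M : ℤ, Odd e → Odd M →
    {R : ℤ × ℤ | e * Nf x R = M}.Finite ∧
    Tendsto (fun s : ℕ => ((π : ℂ) / 2 ^ s) ^ 2 * Ze (2 ^ s) e x (M : ℤ)) atTop
      (𝓝 (-((e * (lastv x).2 : ℤ) : ℂ) / M * (rc e x M : ℂ)))

/-- RCR: the counting function of the reversed word. -/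
def RCR_Stmt : Prop := ∀ x : List ℤ, Even x.length → ∀ e M : ℤ, rc e x.reverse M = rc e x M

/-- CNTM: the sum of the counting functions determines the words up to order and reversal. -/
def CNTM_Stmt : Prop :=
  ∀ (D : ℤ), Odd D → ∀ xs ys : List (List ℤ), xs.length = ys.length →
    (∀ x ∈ xs, Even x.length ∧ (∀ a ∈ x, a ≠ 0) ∧ (lastv x).2 ∣ D) →
    (∀ y ∈ ys, Even y.length ∧ (∀ a ∈ y, a ≠ 0) ∧ (lastv y).2 ∣ D) →
    (∀ M : ℤ, Odd M → (xs.map fun x => rc (D / (lastv x).2) x M).sum =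
      (ys.map fun y => rc (D / (lastv y).2) y M).sum) →
    ∃ zs, ys.Perm zs ∧ List.Forall₂ (fun x z => z = x ∨ z = x.reverse) xs zs

/-! ### The theorem -/

/-- FINS: connected sums of the knots `K_x`. -/
def FINS_Stmt : Prop :=
  ∀ (xs ys : List (List ℤ)) (hx : IsLongKnot (sumd xs)) (hy : IsLongKnot (sumd ys)),
    (∀ x ∈ xs, Even x.length ∧ ∀ a ∈ x, a ≠ 0) → (∀ y ∈ ys, Even y.length ∧ ∀ a ∈ y, a ≠ 0) →
    (∀ v : Knot → ℂ, IsFiniteType v → v (ofDiag (sumd xs) hx) = v (ofDiag (sumd ys) hy)) →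
    ofDiag (sumd xs) hx = ofDiag (sumd ys) hy

end Pool.Agent.TS
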